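import Mathlib

/-!
# Words with a common last part: definitions and leaves (MP_c2d7b4_nt)
-/

set_option autoImplicit false

namespace Pool.Agent.Helper13K9.CS

open Filter Topology Polynomial

/-- `f` has an asymptotic expansion in powers of `1 / (k + 1)` with rational coefficients -/
def Exd (f : ℕ → ℝ) : Prop :=
  ∀ M : ℕ, ∃ (q : ℚ[X]) (C : ℝ), ∀ k : ℕ,
    |f k - (q.map (algebraMap ℚ ℝ)).eval (1 / ((k : ℝ) + 1))| ≤ C / ((k : ℝ) + 1) ^ M

/-- [EXPL]. Solutions of the difference equation have expansions.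
Proof. `Exd` is closed under sums, rational multiples, products, contains `1 / (k + 1)` and
`1 / (k + 2)` (`1 / (k + 2) = x / (1 + x) = ∑_{1 ≤ j < L} (-1) ^ (j - 1) x ^ j + O(x ^ L)`,
`x = 1 / (k + 1)`), hence it is closed under the shift `f ↦ f (· + 1)`. Let
`r k = g k - g (k + 1) = x ^ (a + 2) f (k + 1)`. For every `L` there is `q ∈ ℚ[X]`, `X ∣ q`, with
`r k - (q(1 / (k + 1)) - q(1 / (k + 2))) = O(x ^ (L + 2))`: induction on `L`; the left side has an
expansion, its first coefficient `c x ^ (L + 2)` is removed by `c / (L + 1) X ^ (L + 1)`, since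
`x ^ j - (x / (1 + x)) ^ j = j x ^ (j + 1) + O(x ^ (j + 2))`. Then `e k = g k - q(1 / (k + 1)) → 0` and
`|e k - e (k + 1)| ≤ C x ^ (L + 2)`, so `|e k| ≤ C' / (k + 1) ^ (L + 1)` by summation. -/
def S_EXPL : Prop :=
  ∀ (a : ℕ) (f g : ℕ → ℝ), Exd f →
    (∀ k, g k = g (k + 1) + (((k + 1 : ℕ) : ℝ) ^ (a + 2))⁻¹ * f (k + 1)) →
    Tendsto g atTop (𝓝 0) → Exd g

/-- [INDL]. Linear independence modulo rapidly decreasing sequences.
Proof. `TH507.HS.Hyp.indep` (file `Pool/Agent/TH507/ZS/HSa.lean`) for the ring `R = P ⧸ I`, `P` the ring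
of polynomially bounded real sequences, `I` the ideal of the rapidly decreasing ones, `σ` the shift,
`K` the image of the sequences `k ↦ A(k + 1) / B(k + 1)`, `A, B ∈ ℤ[X]`, `B ≠ 0`,
`f a` the class of `- (k + 1) ^ (-(a + 2))`; a rational function which decreases rapidly vanishes for
large `k` (`|B| ≥ 1` and `|A| ≥ 1` at large integers), so `tel` follows from `TH507.HS.no_tel` with `N = 1`
(file `HSp.lean`), cf. the instance `hyp` in `HSb.lean`. -/
def S_INDL : Prop :=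
  ∀ y : List ℕ → ℕ → ℝ, (∀ w, ∃ (C : ℝ) (d : ℕ), ∀ k : ℕ, |y w k| ≤ C * ((k : ℝ) + 1) ^ d) →
    (∀ k, y [] k = 1) →
    (∀ a w k, y (a :: w) k = y (a :: w) (k + 1) + (((k + 1 : ℕ) : ℝ) ^ (a + 2))⁻¹ * y w (k + 1)) →
    ∀ (U : Finset (List ℕ)) (c : List ℕ → ℚ),
      (∀ M : ℕ, ∃ C : ℝ, ∀ k : ℕ, |∑ u ∈ U, (c u : ℝ) * y u k| ≤ C / ((k : ℝ) + 1) ^ M) →
      ∀ u ∈ U, c u = 0

end Pool.Agent.Helper13K9.CS
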