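import Pool.Agent.Helper13K9.CS.Defs

/-!
# Leaf EXPL (helper30): expansions of the solutions of the difference equation
-/

set_option autoImplicit false

namespace Pool.Agent.Helper13K9.CS
namespace ExplL

open Filter Topology Polynomial

/-- `1 / (k + 1)` -/
noncomputable def x (k : ℕ) : ℝ := 1 / ((k : ℝ) + 1)

theorem x_pos (k : ℕ) : 0 < x k := by unfold x; positivity

theorem x_le_one (k : ℕ) : x k ≤ 1 := by
  unfold x
  rw [div_le_one (by positivity)]
  have : (0 : ℝ) ≤ k := Nat.cast_nonneg k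
  linarith

theorem x_succ (k : ℕ) : x (k + 1) = x k - x k * x (k + 1) := by
  unfold x
  push_cast
  field_simp
  ring

theorem x_succ_le (k : ℕ) : x (k + 1) ≤ x k := by
  rw [x_succ]
  have := mul_pos (x_pos k) (x_pos (k + 1))
  linarith

theorem x_half (k : ℕ) : x k ≤ 2 * x (k + 1) := by
  have h1 := x_succ k
  have h2 := x_le_one k
  have h3 := x_pos (k + 1)
  nlinarith

theorem x_tendsto : Tendsto x atTop (𝓝 0) := tendsto_one_div_add_atTop_nhds_zero_nat

/-- `h = O(x ^ m)` -/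
def Og (m : ℕ) (h : ℕ → ℝ) : Prop := ∃ C : ℝ, 0 ≤ C ∧ ∀ k, |h k| ≤ C * x k ^ m

theorem Og.add {m : ℕ} {f g : ℕ → ℝ} (hf : Og m f) (hg : Og m g) : Og m (fun k => f k + g k) := by
  obtain ⟨C, hC0, hC⟩ := hf
  obtain ⟨D, hD0, hD⟩ := hg
  refine ⟨C + D, by positivity, fun k => (abs_add_le _ _).trans ?_⟩
  rw [add_mul]
  exact add_le_add (hC k) (hD k)

theorem Og.neg {m : ℕ} {f : ℕ → ℝ} (hf : Og m f) : Og m (fun k => -f k) := by
  obtain ⟨C, hC0, hC⟩ := hf
  exact ⟨C, hC0, fun k => by rw [abs_neg]; exact hC k⟩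

theorem Og.sub {m : ℕ} {f g : ℕ → ℝ} (hf : Og m f) (hg : Og m g) : Og m (fun k => f k - g k) := by
  simpa only [sub_eq_add_neg] using hf.add hg.neg

theorem Og.mul {m m' : ℕ} {f g : ℕ → ℝ} (hf : Og m f) (hg : Og m' g) :
    Og (m + m') (fun k => f k * g k) := by
  obtain ⟨C, hC0, hC⟩ := hf
  obtain ⟨D, hD0, hD⟩ := hg
  refine ⟨C * D, by positivity, fun k => ?_⟩
  rw [abs_mul, pow_add]
  have hx := x_pos k
  calc |f k| * |g k| ≤ (C * x k ^ m) * (D * x k ^ m') :=
        mul_le_mul (hC k) (hD k) (abs_nonneg _) (by positivity)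
    _ = C * D * (x k ^ m * x k ^ m') := by ring

theorem Og.mono {m m' : ℕ} (h : m' ≤ m) {f : ℕ → ℝ} (hf : Og m f) : Og m' f := by
  obtain ⟨C, hC0, hC⟩ := hf
  exact ⟨C, hC0, fun k => (hC k).trans (mul_le_mul_of_nonneg_left
    (pow_le_pow_of_le_one (x_pos k).le (x_le_one k) h) hC0)⟩

theorem Og_const (c : ℝ) : Og 0 (fun _ => c) := ⟨|c|, abs_nonneg c, fun k => by simp⟩

theorem Og_zero (m : ℕ) : Og m (fun _ => 0) := ⟨0, le_rfl, fun k => by simp⟩

theorem Og.const_mul {m : ℕ} (c : ℝ) {f : ℕ → ℝ} (hf : Og m f) : Og m (fun k => c * f k) := by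
  simpa using (Og_const c).mul hf

theorem Og_x : Og 1 x := ⟨1, zero_le_one, fun k => by
  rw [abs_of_pos (x_pos k)]; simp⟩

theorem Og_pow (m : ℕ) : Og m (fun k => x k ^ m) := ⟨1, zero_le_one, fun k => by
  have := x_pos k
  rw [abs_of_pos (by positivity)]; simp⟩

theorem Og_x' : Og 1 (fun k => x (k + 1)) := ⟨1, zero_le_one, fun k => by
  rw [abs_of_pos (x_pos _), pow_one, one_mul]
  exact x_succ_le k⟩

theorem Og.congr {m : ℕ} {f g : ℕ → ℝ} (hf : Og m f) (h : ∀ k, g k = f k) : Og m g := by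
  have : g = f := funext h
  rwa [this]

theorem Og_poly (q : ℚ[X]) : Og 0 (fun k => aeval (x k) q) := by
  induction q using Polynomial.induction_on' with
  | add p q hp hq =>
    refine (hp.add hq).congr fun k => ?_
    rw [map_add]
  | monomial n a =>
    refine (((Og_pow n).const_mul (a : ℝ)).mono (Nat.zero_le n)).congr fun k => ?_
    rw [aeval_monomial]
    rfl

/-- expansions, with `Og` -/
def Ex (f : ℕ → ℝ) : Prop := ∀ M : ℕ, ∃ q : ℚ[X], Og M (fun k => f k - aeval (x k) q)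

theorem ex_iff (f : ℕ → ℝ) : Exd f ↔ Ex f := by
  have e1 : ∀ (q : ℚ[X]) (k : ℕ), (q.map (algebraMap ℚ ℝ)).eval (1 / ((k : ℝ) + 1)) =
      aeval (x k) q := fun q k => by
    rw [eval_map_algebraMap]
    rfl
  have e2 : ∀ (C : ℝ) (k M : ℕ), C / ((k : ℝ) + 1) ^ M = C * x k ^ M := fun C k M => by
    unfold x
    rw [one_div, inv_pow, div_eq_mul_inv]
  unfold Exd Ex Og
  refine forall_congr' fun M => exists_congr fun q => ?_
  simp only [e1, e2]
  constructor
  · rintro ⟨C, hC⟩
    refine ⟨|C|, abs_nonneg C, fun k => (hC k).trans (mul_le_mul_of_nonneg_right (le_abs_self C) ?_)⟩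
    have := x_pos k
    positivity
  · rintro ⟨C, _, hC⟩
    exact ⟨C, hC⟩

theorem Ex.bdd {f : ℕ → ℝ} (hf : Ex f) : Og 0 f := by
  obtain ⟨q, hq⟩ := hf 0
  refine (hq.add (Og_poly q)).congr fun k => by ring

theorem Ex.add {f g : ℕ → ℝ} (hf : Ex f) (hg : Ex g) : Ex (fun k => f k + g k) := by
  intro M
  obtain ⟨p, hp⟩ := hf M
  obtain ⟨q, hq⟩ := hg M
  refine ⟨p + q, (hp.add hq).congr fun k => ?_⟩
  rw [map_add]
  ring

theorem Ex.mul {f g : ℕ → ℝ} (hf : Ex f) (hg : Ex g) : Ex (fun k => f k * g k) := by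
  intro M
  obtain ⟨p, hp⟩ := hf M
  obtain ⟨q, hq⟩ := hg M
  have h1 := hp.mul hg.bdd
  have h2 := (Og_poly p).mul hq
  rw [add_zero] at h1
  rw [zero_add] at h2
  refine ⟨p * q, (h1.add h2).congr fun k => ?_⟩
  rw [map_mul]
  ring

theorem Ex_const (c : ℚ) : Ex (fun _ => (c : ℝ)) := fun M => ⟨C c, (Og_zero M).congr fun k => by
  rw [aeval_C]
  simp⟩

theorem Ex_x : Ex x := fun M => ⟨X, (Og_zero M).congr fun k => by rw [aeval_X, sub_self]⟩

theorem Ex_x' : Ex (fun k => x (k + 1)) := by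
  intro M
  induction M with
  | zero => exact ⟨0, (Og_x'.mono (Nat.zero_le _)).congr fun k => by rw [map_zero, sub_zero]⟩
  | succ M ih =>
    obtain ⟨q, hq⟩ := ih
    have h1 := (Og_x.mul hq).neg
    rw [add_comm 1 M] at h1
    refine ⟨X - X * q, h1.congr fun k => ?_⟩
    rw [map_sub, map_mul, aeval_X]
    have := x_succ k
    linear_combination this

/-- the algebra of the sequences with expansions -/
noncomputable def A : Subalgebra ℚ (ℕ → ℝ) where
  carrier := {f | Ex f}
  mul_mem' := Ex.mul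
  one_mem' := by
    have h : (fun _ : ℕ => ((1 : ℚ) : ℝ)) = 1 := by
      funext k
      simp
    exact h ▸ Ex_const 1
  add_mem' := Ex.add
  zero_mem' := by
    have h : (fun _ : ℕ => ((0 : ℚ) : ℝ)) = 0 := by
      funext k
      simp
    exact h ▸ Ex_const 0
  algebraMap_mem' c := Ex_const c

theorem Ex.poly {y : ℕ → ℝ} (hy : Ex y) (q : ℚ[X]) : Ex (fun k => aeval (y k) q) := by
  have h1 : (aeval (⟨y, hy⟩ : A) q : A).1 = aeval y q := by
    have := aeval_algHom_apply A.val (⟨y, hy⟩ : A) q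
    exact this.symm
  have h2 : (fun k => aeval (y k) q) = aeval y q := by
    funext k
    exact aeval_algHom_apply (Pi.evalAlgHom ℚ (fun _ : ℕ => ℝ) k) y q
  have h3 : Ex (aeval (⟨y, hy⟩ : A) q : A).1 := (aeval (⟨y, hy⟩ : A) q : A).2
  rw [h1] at h3
  rwa [h2]

theorem Ex.shift {f : ℕ → ℝ} (hf : Ex f) : Ex (fun k => f (k + 1)) := by
  intro M
  obtain ⟨q, C, hC0, hC⟩ := hf M
  obtain ⟨p, hp⟩ := (Ex_x'.poly q) M
  have h1 : Og M (fun k => f (k + 1) - aeval (x (k + 1)) q) := by
    refine ⟨C, hC0, fun k => (hC (k + 1)).trans (mul_le_mul_of_nonneg_left ?_ hC0)⟩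
    exact pow_le_pow_left₀ (x_pos _).le (x_succ_le k) M
  exact ⟨p, (h1.add hp).congr fun k => by ring⟩

/-- vanishing of the first coefficients -/
theorem dvd_of_Og (m : ℕ) : ∀ p : ℚ[X], Og m (fun k => aeval (x k) p) → X ^ m ∣ p := by
  induction m with
  | zero => intro p _; simp
  | succ m ih =>
    intro p hp
    obtain ⟨p₁, rfl⟩ := ih p (hp.mono (Nat.le_succ m))
    have h0 : aeval (0 : ℝ) p₁ = 0 := by
      obtain ⟨C, hC0, hC⟩ := hp
      have h1 : ∀ k, |aeval (x k) p₁| ≤ C * x k := by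
        intro k
        have h2 : |aeval (x k) (X ^ m * p₁)| ≤ C * x k ^ (m + 1) := hC k
        have h3 := x_pos k
        have h4 : 0 < x k ^ m := by positivity
        rw [map_mul, map_pow, aeval_X, abs_mul, abs_of_pos h4, pow_succ] at h2
        have h5 : x k ^ m * |aeval (x k) p₁| ≤ x k ^ m * (C * x k) := by linarith
        exact le_of_mul_le_mul_left h5 h4
      have h2 : Tendsto (fun k => aeval (x k) p₁) atTop (𝓝 0) := by
        refine squeeze_zero_norm (fun k => h1 k) ?_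
        have := x_tendsto.const_mul C
        rwa [mul_zero] at this
      have h3 : Tendsto (fun k => aeval (x k) p₁) atTop (𝓝 (aeval (0 : ℝ) p₁)) :=
        ((Polynomial.continuous_aeval p₁).tendsto 0).comp x_tendsto
      exact tendsto_nhds_unique h3 h2
    have h1 : X ∣ p₁ := by
      rw [X_dvd_iff]
      have h2 : aeval (0 : ℝ) p₁ = ((p₁.coeff 0 : ℚ) : ℝ) := by
        rw [aeval_def, ← eval_map, ← coeff_zero_eq_eval_zero, coeff_map]
        rfl
      rw [h2] at h0
      exact_mod_cast h0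
    rw [pow_succ]
    exact mul_dvd_mul_left _ h1

/-- the differences of the powers -/
theorem diff_pow (j : ℕ) :
    Og (j + 2) (fun k => x k ^ j - x (k + 1) ^ j - j * x k ^ (j + 1)) := by
  induction j with
  | zero => exact (Og_zero _).congr fun k => by simp
  | succ j ih =>
    have hd : Og 2 (fun k => x (k + 1) - x k) := by
      refine ((Og_x.mul Og_x').neg).congr fun k => ?_
      have := x_succ k
      linarith
    have h1 := (Og_pow (j + 1)).mul hd
    have h2 := ih.mul Og_x'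
    have h3 := ((Og_pow (j + 1)).mul hd).const_mul (j : ℝ)
    refine ((h1.add h2).add h3).congr fun k => ?_
    push_cast
    linear_combination (-(x k ^ j)) * x_succ k

/-- a real constant times -/
theorem step (r : ℕ → ℝ) (hr : Ex r) (hr2 : Og 2 r) (L : ℕ) : ∃ q : ℚ[X], aeval (0 : ℝ) q = 0 ∧
    Ex (fun k => r k - (aeval (x k) q - aeval (x (k + 1)) q)) ∧
    Og (L + 2) (fun k => r k - (aeval (x k) q - aeval (x (k + 1)) q)) := by
  have hEx : ∀ q : ℚ[X], Ex (fun k => r k - (aeval (x k) q - aeval (x (k + 1)) q)) := by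
    intro q
    have h1 := (hr.add ((Ex_const (-1)).mul (Ex_x.poly q))).add (Ex_x'.poly q)
    have : (fun k => r k - (aeval (x k) q - aeval (x (k + 1)) q)) =
        fun k => r k + ((-1 : ℚ) : ℝ) * aeval (x k) q + aeval (x (k + 1)) q := by
      funext k
      push_cast
      ring
    rwa [this]
  induction L with
  | zero =>
    refine ⟨0, by simp, hEx 0, hr2.congr fun k => by simp⟩
  | succ L ih =>
    obtain ⟨q, hq0, hq1, hq2⟩ := ih
    obtain ⟨p, hp⟩ := hq1 (L + 3)
    have h1 : Og (L + 2) (fun k => aeval (x k) p) := by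
      refine (hq2.sub (hp.mono (by omega : L + 2 ≤ L + 3))).congr fun k => ?_
      ring
    obtain ⟨p₁, rfl⟩ := dvd_of_Og (L + 2) p h1
    set c : ℚ := p₁.coeff 0 with hc
    -- `e = c x ^ (L + 2) + O(x ^ (L + 3))`
    have h2 : X ∣ p₁ - C c := by
      rw [X_dvd_iff]
      simp [hc]
    obtain ⟨p₂, hp₂⟩ := h2
    have h3 : Og (L + 3) (fun k => aeval (x k) (X ^ (L + 2) * p₁) - (c : ℝ) * x k ^ (L + 2)) := by
      have h4 := (Og_pow (L + 3)).mul (Og_poly p₂)
      rw [add_zero] at h4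
      refine h4.congr fun k => ?_
      have h5 : p₁ = C c + X * p₂ := by rw [← hp₂]; ring
      rw [h5, map_mul, map_add, map_mul, map_pow, aeval_X, aeval_C]
      have h6 : (algebraMap ℚ ℝ) c = (c : ℝ) := rfl
      rw [h6]
      ring
    refine ⟨q + C (c / (L + 1)) * X ^ (L + 1), by simp [hq0], hEx _, ?_⟩
    have h4 := (diff_pow (L + 1)).const_mul ((c : ℝ) / (L + 1))
    refine (((hp.add h3).sub h4).congr fun k => ?_).mono le_rfl
    have h7 : ((L : ℝ) + 1) ≠ 0 := by positivity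
    simp only [map_add, map_mul, map_pow, aeval_X, aeval_C]
    have h6 : (algebraMap ℚ ℝ) (c / ((L : ℚ) + 1)) = (c : ℝ) / ((L : ℝ) + 1) := by
      have : (algebraMap ℚ ℝ) (c / ((L : ℚ) + 1)) = ((c / ((L : ℚ) + 1) : ℚ) : ℝ) := rfl
      rw [this]
      push_cast
      rfl
    rw [h6]
    push_cast
    field_simp
    ring

/-- summation -/
theorem summ {E : ℕ → ℝ} {m : ℕ} (hE : Tendsto E atTop (𝓝 0))
    (hd : Og (m + 2) (fun k => E k - E (k + 1))) : Og (m + 1) E := by
  obtain ⟨C, hC0, hC⟩ := hd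
  refine ⟨2 * C, by positivity, ?_⟩
  set φ : ℕ → ℝ := fun k => 2 * C * x k ^ (m + 1) with hφ
  have hstep : ∀ k, |E k| - φ k ≤ |E (k + 1)| - φ (k + 1) := by
    intro k
    have h1 := hC k
    have h2 : |E k| ≤ |E k - E (k + 1)| + |E (k + 1)| := by
      have := abs_add_le (E k - E (k + 1)) (E (k + 1))
      simpa using this
    have hx := x_pos k
    have hx' := x_pos (k + 1)
    have h3 : x k ^ (m + 2) ≤ 2 * (x k ^ (m + 1) - x (k + 1) ^ (m + 1)) := by
      have h4 : x (k + 1) ^ (m + 1) ≤ x k ^ m * x (k + 1) := by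
        rw [pow_succ]
        exact mul_le_mul_of_nonneg_right (pow_le_pow_left₀ hx'.le (x_succ_le k) m) hx'.le
      have h5 : x k ^ (m + 1) - x k ^ m * x (k + 1) = x k ^ m * (x k * x (k + 1)) := by
        have := x_succ k
        rw [pow_succ]
        have h6 : x k ^ m * x k - x k ^ m * x (k + 1) = x k ^ m * (x k - x (k + 1)) := by ring
        rw [h6]
        congr 1
        linarith
      have h6 : x k ^ (m + 2) ≤ 2 * (x k ^ m * (x k * x (k + 1))) := by
        have h7 := x_half k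
        have h8 : 0 ≤ x k ^ m * x k := by positivity
        calc x k ^ (m + 2) = (x k ^ m * x k) * x k := by ring
          _ ≤ (x k ^ m * x k) * (2 * x (k + 1)) := mul_le_mul_of_nonneg_left h7 h8
          _ = 2 * (x k ^ m * (x k * x (k + 1))) := by ring
      linarith
    have h4 : C * x k ^ (m + 2) ≤ φ k - φ (k + 1) := by
      have := mul_le_mul_of_nonneg_left h3 hC0
      simp only [hφ]
      linarith
    linarith
  have hmono : Monotone (fun k => |E k| - φ k) := monotone_nat_of_le_succ hstep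
  have hlim : Tendsto (fun k => |E k| - φ k) atTop (𝓝 0) := by
    have h1 : Tendsto (fun k => |E k|) atTop (𝓝 0) := by
      have := hE.abs
      rwa [abs_zero] at this
    have h2 : Tendsto φ atTop (𝓝 0) := by
      have := (x_tendsto.pow (m + 1)).const_mul (2 * C)
      simpa using this
    simpa using h1.sub h2
  intro k
  have := hmono.ge_of_tendsto hlim k
  simp only [hφ] at this
  linarith

end ExplL

open ExplL Filter Topology Polynomial in
theorem expl : S_EXPL := by
  intro a f g hf hg hlim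
  rw [ex_iff] at hf ⊢
  set r : ℕ → ℝ := fun k => x k ^ (a + 2) * f (k + 1) with hr
  have hpow : Ex (fun k => x k ^ (a + 2)) := by
    have := Ex_x.poly (X ^ (a + 2))
    simpa using this
  have hrE : Ex r := hpow.mul hf.shift
  have hr2 : Og 2 r := by
    have h1 := (Og_pow (a + 2)).mul hf.shift.bdd
    exact h1.mono (by omega)
  have hrg : ∀ k, g k - g (k + 1) = r k := by
    intro k
    rw [hg k]
    simp only [hr, x]
    push_cast
    rw [one_div, inv_pow]
    ring
  intro M
  obtain ⟨q, hq0, -, hq2⟩ := step r hrE hr2 M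
  refine ⟨q, (summ (m := M) ?_ ?_).mono (Nat.le_succ M)⟩
  · have h3 : Tendsto (fun k => aeval (x k) q) atTop (𝓝 (aeval (0 : ℝ) q)) :=
      ((Polynomial.continuous_aeval q).tendsto 0).comp x_tendsto
    rw [hq0] at h3
    simpa using hlim.sub h3
  · refine hq2.congr fun k => ?_
    rw [← hrg k]
    ring

end Pool.Agent.Helper13K9.CS
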