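import Mathlib
import Pool.Agent.Q217.TT.Measure
import Pool.Agent.Helper13K9.CS.Defs

/-!
# The tails of multiple zeta values
-/

set_option autoImplicit false

namespace Pool.Agent.Helper13K9.CS

open Filter Topology Finset
open Pool.Agent.Q217.TT (ep ep_nil ep_self ep_nonneg ep_succ ep_left ep_anti ep_mono H_app ep_two_le' ep_pos)
open Pool.Agent.H447R2.MZ (H H_nil H_cons H_cons_zero H_cons_succ H_nonneg Adm val tendsto_H H_le_val H_bdd)

/-- the word with the letters `a + 2` -/
def nw (w : List ℕ) : List ℕ := w.map (· + 2)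

/-- the sum of `∏ n_i ^ (- s_i)` over `n_1 > ... > n_a > m` -/
noncomputable def T (p : List ℕ) (m : ℕ) : ℝ := ⨆ N, ep p m N

lemma ep_monotone (p : List ℕ) (M : ℕ) : Monotone (ep p M) := by
  intro N N' h
  cases p with
  | nil => rw [ep_nil, ep_nil]
  | cons s p =>
    rw [ep, ep]
    exact Finset.sum_le_sum_of_subset_of_nonneg (Finset.Ico_subset_Ico_right h)
      fun n _ _ => mul_nonneg (by positivity) (ep_nonneg _ _ _)

lemma ep_zero (p : List ℕ) (N : ℕ) : ep p 0 N = H p N := by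
  induction p generalizing N with
  | nil => rw [ep_nil, H_nil]
  | cons s p ih =>
    rw [ep, H_cons, ← Finset.range_eq_Ico]
    exact Finset.sum_congr rfl fun n _ => by rw [ih]

lemma ep_le_H (p : List ℕ) (M N : ℕ) : ep p M N ≤ H p N := by
  cases p with
  | nil => rw [ep_nil, H_nil]
  | cons s p =>
    rcases Nat.lt_or_ge N M with h | h
    · rw [ep, Finset.Ico_eq_empty (by omega), Finset.sum_empty]
      exact H_nonneg _ _
    · rw [← ep_zero]
      exact ep_anti _ (Nat.zero_le _) h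

lemma ep_le (p : List ℕ) (hp : Adm p) (M N : ℕ) : ep p M N ≤ 3 * 2 ^ p.length :=
  (ep_le_H p M N).trans (H_bdd p hp N)

lemma tend (p : List ℕ) (hp : Adm p) (m : ℕ) : Tendsto (ep p m) atTop (𝓝 (T p m)) :=
  tendsto_atTop_ciSup (ep_monotone p m) ⟨3 * 2 ^ p.length, by
    rintro _ ⟨N, rfl⟩
    exact ep_le p hp m N⟩

lemma ep_le_T (p : List ℕ) (hp : Adm p) (m N : ℕ) : ep p m N ≤ T p m :=
  le_ciSup (f := fun N => ep p m N) ⟨3 * 2 ^ p.length, by
    rintro _ ⟨N, rfl⟩
    exact ep_le p hp m N⟩ N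

lemma T_nonneg (p : List ℕ) (hp : Adm p) (m : ℕ) : 0 ≤ T p m :=
  (ep_nonneg p m 0).trans (ep_le_T p hp m 0)

lemma T_le (p : List ℕ) (hp : Adm p) (m : ℕ) : T p m ≤ 3 * 2 ^ p.length :=
  ciSup_le fun N => ep_le p hp m N

lemma adm_nil : Adm [] := ⟨fun a h => absurd h List.not_mem_nil, fun a t h => by simp at h⟩

lemma T_nil (m : ℕ) : T [] m = 1 :=
  tendsto_nhds_unique (tend [] adm_nil m)
    (tendsto_const_nhds.congr fun N => (ep_nil m N).symm)

lemma adm_nw (w : List ℕ) : Adm (nw w) := by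
  refine ⟨fun x hx => ?_, fun x t h => ?_⟩
  · rw [nw, List.mem_map] at hx
    obtain ⟨y, _, rfl⟩ := hx
    omega
  · have hx : x ∈ nw w := by rw [h]; exact List.mem_cons_self
    rw [nw, List.mem_map] at hx
    obtain ⟨y, _, rfl⟩ := hx
    omega

lemma nw_append (u v : List ℕ) : nw (u ++ v) = nw u ++ nw v := List.map_append

lemma nw_one (a : ℕ) : nw [a] = [a + 2] := rfl

lemma nw_len (w : List ℕ) : (nw w).length = w.length := List.length_map _

lemma T_left (w : List ℕ) (a m : ℕ) : T (nw (w ++ [a])) m = T (nw (w ++ [a])) (m + 1) +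
    (((m + 1 : ℕ) : ℝ) ^ (a + 2))⁻¹ * T (nw w) (m + 1) := by
  have h1 := tend (nw (w ++ [a])) (adm_nw _) m
  have h2 := (tend (nw (w ++ [a])) (adm_nw _) (m + 1)).add
    ((tend (nw w) (adm_nw _) (m + 1)).const_mul (((m + 1 : ℕ) : ℝ) ^ (a + 2))⁻¹)
  refine tendsto_nhds_unique h1 (h2.congr' ?_)
  filter_upwards [eventually_ge_atTop (m + 1)] with N hN
  rw [nw_append, nw_one]
  exact (ep_left (nw w) (a + 2) hN).symm

lemma T_van_bd (a : ℕ) (w : List ℕ) {m : ℕ} (hm : 1 ≤ m) :
    T (nw (a :: w)) m ≤ 3 * 2 ^ w.length * (1 / (m : ℝ)) := by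
  refine ciSup_le fun N => ?_
  have hc : nw (a :: w) = (a + 2) :: nw w := rfl
  rw [hc, ep]
  rcases Nat.lt_or_ge N m with h | h
  · rw [Finset.Ico_eq_empty (by omega), Finset.sum_empty]
    positivity
  have h1 : ep [2] m N ≤ 1 / (m : ℝ) := ep_two_le' hm h
  rw [ep] at h1
  have h2 := mul_le_mul_of_nonneg_left h1 (by positivity : (0 : ℝ) ≤ 3 * 2 ^ w.length)
  refine le_trans ?_ h2
  rw [Finset.mul_sum]
  refine Finset.sum_le_sum fun n _ => ?_
  rw [ep_nil, mul_one, mul_comm]
  have h3 := ep_le (nw w) (adm_nw w) m n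
  rw [nw_len] at h3
  refine mul_le_mul h3 ?_ (by positivity) (by positivity)
  apply inv_anti₀ (by positivity)
  exact pow_le_pow_right₀ (by exact_mod_cast Nat.succ_le_succ (Nat.zero_le n)) (by omega)

lemma T_van (a : ℕ) (w : List ℕ) : Tendsto (T (nw (a :: w))) atTop (𝓝 0) := by
  refine squeeze_zero' (Eventually.of_forall fun m => T_nonneg _ (adm_nw _) m)
    (g := fun m : ℕ => 3 * 2 ^ w.length * (1 / (m : ℝ))) ?_ ?_
  · filter_upwards [eventually_ge_atTop 1] with m hm
    exact T_van_bd a w hm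
  · have h := (tendsto_one_div_atTop_nhds_zero_nat (𝕜 := ℝ)).const_mul (3 * 2 ^ w.length : ℝ)
    rwa [mul_zero] at h

lemma T_van' (w : List ℕ) (hw : w ≠ []) : Tendsto (T (nw w)) atTop (𝓝 0) := by
  cases w with
  | nil => exact absurd rfl hw
  | cons a w => exact T_van a w

/-- the sequences for the reversed words -/
noncomputable def yy (w : List ℕ) (k : ℕ) : ℝ := T (nw w.reverse) k

lemma yy_nil (k : ℕ) : yy [] k = 1 := T_nil k

lemma yy_rec (a : ℕ) (w : List ℕ) (k : ℕ) :
    yy (a :: w) k = yy (a :: w) (k + 1) + (((k + 1 : ℕ) : ℝ) ^ (a + 2))⁻¹ * yy w (k + 1) := by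
  unfold yy
  rw [List.reverse_cons]
  exact T_left w.reverse a k

lemma yy_van (a : ℕ) (w : List ℕ) : Tendsto (yy (a :: w)) atTop (𝓝 0) :=
  T_van' _ (by simp)

lemma yy_bd (w : List ℕ) (k : ℕ) : |yy w k| ≤ 3 * 2 ^ w.length := by
  have h1 := T_le (nw w.reverse) (adm_nw _) k
  rw [nw_len, List.length_reverse] at h1
  unfold yy
  rwa [abs_of_nonneg (T_nonneg _ (adm_nw _) k)]

open Polynomial in
lemma exd_yy (hE : S_EXPL) (w : List ℕ) : Exd (yy w) := by
  induction w with
  | nil =>
    intro M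
    refine ⟨1, 0, fun k => ?_⟩
    rw [yy_nil]
    simp
  | cons a w ih => exact hE a (yy w) (yy (a :: w)) ih (yy_rec a w) (yy_van a w)

lemma exd_T (hE : S_EXPL) (w : List ℕ) : Exd (T (nw w)) := by
  have h := exd_yy hE w.reverse
  have e : yy w.reverse = T (nw w) := by
    funext k
    unfold yy
    rw [List.reverse_reverse]
  rwa [e] at h

lemma indep_T (hI : S_INDL) (U : Finset (List ℕ)) (c : List ℕ → ℚ)
    (h : ∀ M : ℕ, ∃ C : ℝ, ∀ k : ℕ, |∑ u ∈ U, (c u : ℝ) * T (nw u) k| ≤ C / ((k : ℝ) + 1) ^ M) :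
    ∀ u ∈ U, c u = 0 := by
  classical
  have h1 := hI yy (fun w => ⟨3 * 2 ^ w.length, 0, fun k => by
      rw [pow_zero, mul_one]; exact yy_bd w k⟩) yy_nil yy_rec (U.image List.reverse)
    (fun w => c w.reverse) (fun M => by
      obtain ⟨C, hC⟩ := h M
      refine ⟨C, fun k => ?_⟩
      rw [Finset.sum_image (fun x _ y _ hxy => List.reverse_injective hxy)]
      unfold yy
      simp only [List.reverse_reverse]
      exact hC k)
  intro u hu
  have h2 := h1 u.reverse (Finset.mem_image_of_mem _ hu)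
  rwa [List.reverse_reverse] at h2

/-- finitely many coefficients decide -/
theorem fin_order (hI : S_INDL) (U : Finset (List ℕ)) : ∃ M : ℕ, ∀ c : List ℕ → ℚ,
    (∃ C : ℝ, ∀ k : ℕ, |∑ u ∈ U, (c u : ℝ) * T (nw u) k| ≤ C / ((k : ℝ) + 1) ^ M) →
    ∀ u ∈ U, c u = 0 := by
  classical
  let V : ℕ → Submodule ℚ (List ℕ → ℚ) := fun M =>
    { carrier := {c | (∀ u, u ∉ U → c u = 0) ∧
        ∃ C : ℝ, ∀ k : ℕ, |∑ u ∈ U, (c u : ℝ) * T (nw u) k| ≤ C / ((k : ℝ) + 1) ^ M}
      zero_mem' := ⟨fun _ _ => rfl, 0, fun k => by simp⟩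
      add_mem' := by
        rintro c d ⟨hc0, C, hC⟩ ⟨hd0, D, hD⟩
        refine ⟨fun u hu => by rw [Pi.add_apply, hc0 u hu, hd0 u hu, add_zero], C + D, fun k => ?_⟩
        have e : ∑ u ∈ U, (((c + d) u : ℚ) : ℝ) * T (nw u) k =
            ∑ u ∈ U, (c u : ℝ) * T (nw u) k + ∑ u ∈ U, (d u : ℝ) * T (nw u) k := by
          rw [← Finset.sum_add_distrib]
          refine Finset.sum_congr rfl fun u _ => ?_
          rw [Pi.add_apply]
          push_cast
          ring
        rw [e, add_div]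
        exact (abs_add_le _ _).trans (add_le_add (hC k) (hD k))
      smul_mem' := by
        rintro q c ⟨hc0, C, hC⟩
        refine ⟨fun u hu => by rw [Pi.smul_apply, hc0 u hu, smul_zero], |(q : ℝ)| * C, fun k => ?_⟩
        have e : ∑ u ∈ U, (((q • c) u : ℚ) : ℝ) * T (nw u) k =
            (q : ℝ) * ∑ u ∈ U, (c u : ℝ) * T (nw u) k := by
          rw [Finset.mul_sum]
          refine Finset.sum_congr rfl fun u _ => ?_
          rw [Pi.smul_apply, smul_eq_mul]
          push_cast
          ring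
        rw [e, abs_mul, mul_div_assoc]
        exact mul_le_mul_of_nonneg_left (hC k) (abs_nonneg _) }
  have hanti : ∀ M, V (M + 1) ≤ V M := by
    rintro M c ⟨hc0, C, hC⟩
    refine ⟨hc0, |C|, fun k => (hC k).trans ?_⟩
    have hk : (1 : ℝ) ≤ (k : ℝ) + 1 := by linarith [Nat.cast_nonneg (α := ℝ) k]
    rw [div_le_div_iff₀ (by positivity) (by positivity)]
    have h1 : ((k : ℝ) + 1) ^ M ≤ ((k : ℝ) + 1) ^ (M + 1) := pow_le_pow_right₀ hk (Nat.le_succ M)
    calc C * ((k : ℝ) + 1) ^ M ≤ |C| * ((k : ℝ) + 1) ^ M :=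
          mul_le_mul_of_nonneg_right (le_abs_self C) (by positivity)
      _ ≤ |C| * ((k : ℝ) + 1) ^ (M + 1) := mul_le_mul_of_nonneg_left h1 (abs_nonneg C)
  -- restrict to a finite dimensional space
  let W : Submodule ℚ (List ℕ → ℚ) := { carrier := {c | ∀ u, u ∉ U → c u = 0}
                                        zero_mem' := fun _ _ => rfl
                                        add_mem' := fun {c d} hc hd u hu => by
                                          rw [Pi.add_apply, hc u hu, hd u hu, add_zero]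
                                        smul_mem' := fun q c hc u hu => by
                                          rw [Pi.smul_apply, hc u hu, smul_zero] }
  have hfin : FiniteDimensional ℚ W := by
    let L : W →ₗ[ℚ] (U → ℚ) :=
      { toFun := fun c u => c.1 u.1
        map_add' := fun _ _ => rfl
        map_smul' := fun _ _ => rfl }
    refine FiniteDimensional.of_injective L ?_
    intro c d h
    apply Subtype.ext
    funext u
    by_cases hu : u ∈ U
    · exact congrFun h ⟨u, hu⟩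
    · rw [c.2 u hu, d.2 u hu]
  have hVW : ∀ M, V M ≤ W := fun M c hc => hc.1
  let f : ℕ →o (Submodule ℚ W)ᵒᵈ :=
    { toFun := fun M => OrderDual.toDual ((V M).comap W.subtype)
      monotone' := monotone_nat_of_le_succ fun M => by
        show (V (M + 1)).comap W.subtype ≤ (V M).comap W.subtype
        exact Submodule.comap_mono (hanti M) }
  obtain ⟨M0, hM0⟩ := IsArtinian.monotone_stabilizes f
  refine ⟨M0, fun c hc => ?_⟩
  let c' : List ℕ → ℚ := fun u => if u ∈ U then c u else 0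
  have hcc : ∀ k, ∑ u ∈ U, (c' u : ℝ) * T (nw u) k = ∑ u ∈ U, (c u : ℝ) * T (nw u) k := by
    intro k
    refine Finset.sum_congr rfl fun u hu => ?_
    simp only [c', if_pos hu]
  have hcW : c' ∈ W := fun u hu => if_neg hu
  have hV0 : c' ∈ V M0 := by
    refine ⟨hcW, ?_⟩
    obtain ⟨C, hC⟩ := hc
    exact ⟨C, fun k => by rw [hcc]; exact hC k⟩
  have hall : ∀ M, c' ∈ V M := by
    intro M
    rcases le_total M M0 with h | h
    · have h2 : (⟨c', hcW⟩ : W) ∈ (V M0).comap W.subtype := hV0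
      have h3 := f.monotone h
      have h4 : (V M0).comap W.subtype ≤ (V M).comap W.subtype := h3
      exact h4 h2
    · have h2 : (⟨c', hcW⟩ : W) ∈ (V M0).comap W.subtype := hV0
      have h3 := hM0 M h
      have h4 : (V M0).comap W.subtype = (V M).comap W.subtype := h3
      rw [h4] at h2
      exact h2
  have h5 := indep_T hI U c' (fun M => (hall M).2)
  intro u hu
  have h6 := h5 u hu
  simpa only [c', if_pos hu] using h6

end Pool.Agent.Helper13K9.CS
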