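import Mathlib
import Pool.Agent.Helper13K9.CS.Tail

/-!
# The sign of the combinations of the tails
-/

set_option autoImplicit false

namespace Pool.Agent.Helper13K9.CS

open Filter Topology Finset Polynomial

/-- common denominators -/
lemma common_den {ι : Type*} (U : Finset ι) (q : ι → ℚ[X]) :
    ∃ D : ℕ, 1 ≤ D ∧ ∀ c : ι → ℤ, ∀ i : ℕ, (∑ u ∈ U, Polynomial.C (c u : ℚ) * q u).coeff i ≠ 0 →
      1 / (D : ℚ) ≤ |(∑ u ∈ U, Polynomial.C (c u : ℚ) * q u).coeff i| := by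
  classical
  have h1 : ∀ p : ℚ[X], ∃ d : ℕ, 1 ≤ d ∧ ∀ i, ∃ z : ℤ, (d : ℚ) * p.coeff i = z := by
    intro p
    refine ⟨∏ i ∈ p.support, (p.coeff i).den, Nat.one_le_iff_ne_zero.2
      (Finset.prod_ne_zero_iff.2 fun i _ => (p.coeff i).den_nz), fun i => ?_⟩
    by_cases hi : i ∈ p.support
    · refine ⟨(∏ j ∈ p.support.erase i, (p.coeff j).den : ℕ) * (p.coeff i).num, ?_⟩
      rw [← Finset.mul_prod_erase _ _ hi]
      push_cast
      have h2 : ((p.coeff i).den : ℚ) * p.coeff i = (p.coeff i).num := by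
        rw [mul_comm]; exact Rat.mul_den_eq_num _
      rw [← h2]
      ring
    · refine ⟨0, ?_⟩
      rw [Polynomial.notMem_support_iff.1 hi]
      simp
  choose d hd1 hd using h1
  refine ⟨∏ u ∈ U, d (q u), Nat.one_le_iff_ne_zero.2
    (Finset.prod_ne_zero_iff.2 fun u _ => by have := hd1 (q u); omega), fun c i hne => ?_⟩
  set D : ℕ := ∏ u ∈ U, d (q u) with hD
  have hD0 : 0 < D := Nat.pos_of_ne_zero (Finset.prod_ne_zero_iff.2 fun u _ => by have := hd1 (q u); omega)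
  have hDq : (0 : ℚ) < D := by exact_mod_cast hD0
  have h2 : ∃ z : ℤ, (D : ℚ) * (∑ u ∈ U, Polynomial.C (c u : ℚ) * q u).coeff i = z := by
    rw [Polynomial.finset_sum_coeff, Finset.mul_sum]
    have h3 : ∀ u ∈ U, ∃ z : ℤ, (D : ℚ) * (Polynomial.C (c u : ℚ) * q u).coeff i = z := by
      intro u hu
      obtain ⟨z, hz⟩ := hd (q u) i
      refine ⟨(∏ v ∈ U.erase u, d (q v) : ℕ) * c u * z, ?_⟩
      rw [Polynomial.coeff_C_mul, hD, ← Finset.mul_prod_erase _ _ hu]
      push_cast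
      rw [← hz]
      ring
    choose! z hz using h3
    exact ⟨∑ u ∈ U, z u, by push_cast; exact Finset.sum_congr rfl hz⟩
  obtain ⟨z, hz⟩ := h2
  have hz0 : z ≠ 0 := by
    rintro rfl
    rw [Int.cast_zero] at hz
    rcases mul_eq_zero.1 hz with h | h
    · exact hDq.ne' h
    · exact hne h
  rw [div_le_iff₀ hDq, ← abs_of_pos hDq, ← abs_mul, mul_comm, hz, ← Int.cast_abs]
  exact_mod_cast Int.one_le_abs hz0

/-- the values of a polynomial near zero -/
lemma eval_low (p : ℚ[X]) (i0 : ℕ) (h0 : ∀ i < i0, p.coeff i = 0) {x : ℝ} (hx0 : 0 ≤ x) (hx1 : x ≤ 1) :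
    |(p.map (algebraMap ℚ ℝ)).eval x - (p.coeff i0 : ℝ) * x ^ i0| ≤
      (∑ i ∈ range (p.natDegree + 1), |(p.coeff i : ℝ)|) * x ^ (i0 + 1) := by
  have h1 : (p.map (algebraMap ℚ ℝ)).eval x =
      ∑ i ∈ range (p.natDegree + 1), (p.coeff i : ℝ) * x ^ i := by
    rw [Polynomial.eval_map, Polynomial.eval₂_eq_sum_range]
    rfl
  have h2 : (p.coeff i0 : ℝ) * x ^ i0 =
      ∑ i ∈ range (p.natDegree + 1), if i = i0 then (p.coeff i : ℝ) * x ^ i else 0 := by
    rw [Finset.sum_ite_eq']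
    split_ifs with h
    · rfl
    · have h3 : p.coeff i0 = 0 := Polynomial.coeff_eq_zero_of_natDegree_lt
        (by rw [Finset.mem_range] at h; omega)
      rw [h3]
      simp
  rw [h1, h2, ← Finset.sum_sub_distrib, Finset.sum_mul]
  refine (Finset.abs_sum_le_sum_abs _ _).trans (Finset.sum_le_sum fun i _ => ?_)
  rcases lt_trichotomy i i0 with h | h | h
  · rw [h0 i h, if_neg h.ne]
    simp
  · rw [if_pos h, sub_self, abs_zero]
    positivity
  · rw [if_neg h.ne', sub_zero, abs_mul, abs_of_nonneg (pow_nonneg hx0 i)]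
    exact mul_le_mul_of_nonneg_left (pow_le_pow_of_le_one hx0 hx1 h) (abs_nonneg _)

/-- **The sign of the combinations.** -/
theorem sign (hE : S_EXPL) (hI : S_INDL) (U : Finset (List ℕ)) : ∃ (κ : ℝ) (M : ℕ), 0 < κ ∧
    ∀ c : List ℕ → ℤ, (∃ u ∈ U, c u ≠ 0) → ∃ ε : ℝ, (ε = 1 ∨ ε = -1) ∧
      ∀ k : ℕ, (∀ u ∈ U, |(c u : ℝ)| ≤ κ * ((k : ℝ) + 1)) →
        κ / ((k : ℝ) + 1) ^ M ≤ ε * ∑ u ∈ U, (c u : ℝ) * T (nw u) k := by
  classical
  obtain ⟨M, hM⟩ := fin_order hI U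
  have hex : ∀ u : List ℕ, ∃ (q : ℚ[X]) (C : ℝ), 0 ≤ C ∧ ∀ k : ℕ,
      |T (nw u) k - (q.map (algebraMap ℚ ℝ)).eval (1 / ((k : ℝ) + 1))| ≤ C / ((k : ℝ) + 1) ^ M := by
    intro u
    obtain ⟨q, C, h⟩ := exd_T hE u M
    refine ⟨q, |C|, abs_nonneg C, fun k => (h k).trans ?_⟩
    exact div_le_div_of_nonneg_right (le_abs_self C) (by positivity)
  choose q C hC0 hC using hex
  obtain ⟨D, hD1, hD⟩ := common_den U q
  set A : ℝ := ∑ u ∈ U, (∑ i ∈ range ((q u).natDegree + 1), |((q u).coeff i : ℝ)|) with hA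
  have hA0 : 0 ≤ A := Finset.sum_nonneg fun u _ => Finset.sum_nonneg fun i _ => abs_nonneg _
  set B : ℝ := ∑ u ∈ U, C u with hB
  have hB0 : 0 ≤ B := Finset.sum_nonneg fun u _ => hC0 u
  have hDr : (0 : ℝ) < D := by exact_mod_cast (by omega : 0 < D)
  set N : ℕ := ∑ u ∈ U, ((q u).natDegree + 1) with hN
  -- a bound for the coefficients of the combination
  set G : ℝ := 2 * (D : ℝ) * ((N + 1 : ℝ) * A + B + 1) with hG
  have hG0 : 0 < G := by positivity
  refine ⟨1 / G, M, by positivity, fun c hc => ?_⟩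
  set P : ℚ[X] := ∑ u ∈ U, Polynomial.C (c u : ℚ) * q u with hP
  -- the first nonzero coefficient
  have hPne : ∃ i, i < M ∧ P.coeff i ≠ 0 := by
    by_contra hcon
    push Not at hcon
    obtain ⟨u0, hu0, hcu0⟩ := hc
    apply hcu0
    have h1 := hM (fun u => (c u : ℚ)) ?_ u0 hu0
    · exact_mod_cast h1
    · rcases Nat.eq_zero_or_pos M with hM0 | hMp
      · refine ⟨∑ u ∈ U, |(c u : ℝ)| * (3 * 2 ^ (nw u).length), fun k => ?_⟩
        rw [hM0, pow_zero, div_one]
        refine (Finset.abs_sum_le_sum_abs _ _).trans (Finset.sum_le_sum fun u _ => ?_)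
        rw [abs_mul, abs_of_nonneg (T_nonneg _ (adm_nw u) k)]
        push_cast
        exact mul_le_mul_of_nonneg_left (T_le _ (adm_nw u) k) (abs_nonneg _)
      · obtain ⟨M', rfl⟩ : ∃ M', M = M' + 1 := ⟨M - 1, by omega⟩
        refine ⟨(∑ i ∈ range (P.natDegree + 1), |(P.coeff i : ℝ)|) +
          ∑ u ∈ U, |(c u : ℝ)| * C u, fun k => ?_⟩
        have hk : (0 : ℝ) < (k : ℝ) + 1 := by positivity
        set x : ℝ := 1 / ((k : ℝ) + 1) with hx
        have hx0 : 0 ≤ x := by positivity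
        have hx1 : x ≤ 1 := by
          rw [hx, div_le_one hk]
          linarith [Nat.cast_nonneg (α := ℝ) k]
        have h2 := eval_low P M' (fun i hi => hcon i (by omega)) hx0 hx1
        rw [hcon M' (by omega)] at h2
        rw [Rat.cast_zero, zero_mul, sub_zero] at h2
        have h3 : (P.map (algebraMap ℚ ℝ)).eval x =
            ∑ u ∈ U, (c u : ℝ) * ((q u).map (algebraMap ℚ ℝ)).eval x := by
          rw [hP, Polynomial.map_sum, Polynomial.eval_finset_sum]
          refine Finset.sum_congr rfl fun u _ => ?_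
          rw [Polynomial.map_mul, Polynomial.map_C, Polynomial.eval_mul, Polynomial.eval_C]
          simp
        have h4 : ∑ u ∈ U, (((c u : ℚ) : ℝ)) * T (nw u) k = (P.map (algebraMap ℚ ℝ)).eval x +
            ∑ u ∈ U, (c u : ℝ) * (T (nw u) k - ((q u).map (algebraMap ℚ ℝ)).eval x) := by
          rw [h3, ← Finset.sum_add_distrib]
          refine Finset.sum_congr rfl fun u _ => ?_
          push_cast
          ring
        rw [h4, add_div]
        refine (abs_add_le _ _).trans (add_le_add ?_ ?_)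
        · refine h2.trans (le_of_eq ?_)
          rw [hx, one_div, inv_pow, div_eq_mul_inv]
        · refine (Finset.abs_sum_le_sum_abs _ _).trans ?_
          rw [Finset.sum_div]
          refine Finset.sum_le_sum fun u _ => ?_
          rw [abs_mul, mul_div_assoc]
          exact mul_le_mul_of_nonneg_left (hC u k) (abs_nonneg _)
  set i0 := Nat.find hPne with hi0
  obtain ⟨hi0M, hi0ne⟩ := Nat.find_spec hPne
  have hmin : ∀ i < i0, P.coeff i = 0 := by
    intro i hi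
    have h1 := Nat.find_min hPne hi
    by_contra h2
    exact h1 ⟨by omega, h2⟩
  have hlow : 1 / (D : ℝ) ≤ |(P.coeff i0 : ℝ)| := by
    have h1 := hD c i0 hi0ne
    have h2 := (Rat.cast_le (K := ℝ)).2 h1
    rw [← Rat.cast_abs]
    push_cast at h2 ⊢
    exact h2
  have hA' : ∀ (K : ℝ), (∀ u ∈ U, |(c u : ℝ)| ≤ K) → 0 ≤ K →
      ∑ i ∈ range (P.natDegree + 1), |(P.coeff i : ℝ)| ≤ (N + 1 : ℝ) * (K * A) := by
    intro K hK hK0
    have h1 : ∀ i, |(P.coeff i : ℝ)| ≤ K * A := by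
      intro i
      rw [hP, Polynomial.finset_sum_coeff, Rat.cast_sum, hA, Finset.mul_sum]
      refine (Finset.abs_sum_le_sum_abs _ _).trans (Finset.sum_le_sum fun u hu => ?_)
      rw [Polynomial.coeff_C_mul]
      push_cast
      rw [abs_mul]
      refine mul_le_mul (hK u hu) ?_ (abs_nonneg _) hK0
      by_cases hi : i ∈ range ((q u).natDegree + 1)
      · exact Finset.single_le_sum (f := fun i => |((q u).coeff i : ℝ)|)
          (fun j _ => abs_nonneg _) hi
      · rw [Polynomial.coeff_eq_zero_of_natDegree_lt (by rw [Finset.mem_range] at hi; omega)]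
        rw [Rat.cast_zero, abs_zero]
        exact Finset.sum_nonneg fun j _ => abs_nonneg _
    have h2 : P.natDegree + 1 ≤ N + 1 := by
      have h3 : P.natDegree ≤ N := by
        rw [hP]
        refine Polynomial.natDegree_sum_le_of_forall_le U _ fun u hu => ?_
        refine (Polynomial.natDegree_C_mul_le _ _).trans ?_
        rw [hN]
        exact (Nat.le_succ _).trans (Finset.single_le_sum
          (f := fun u => (q u).natDegree + 1) (fun _ _ => Nat.zero_le _) hu)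
      omega
    calc ∑ i ∈ range (P.natDegree + 1), |(P.coeff i : ℝ)|
        ≤ ∑ _i ∈ range (P.natDegree + 1), K * A := Finset.sum_le_sum fun i _ => h1 i
      _ = ((P.natDegree + 1 : ℕ) : ℝ) * (K * A) := by
          rw [Finset.sum_const, Finset.card_range, nsmul_eq_mul]
      _ ≤ (N + 1 : ℝ) * (K * A) := by
          apply mul_le_mul_of_nonneg_right _ (by positivity)
          exact_mod_cast h2
  -- the sign
  have hane : (P.coeff i0 : ℝ) ≠ 0 := by exact_mod_cast hi0ne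
  obtain ⟨ε, hε, hεa⟩ : ∃ ε : ℝ, (ε = 1 ∨ ε = -1) ∧ ε * (P.coeff i0 : ℝ) = |(P.coeff i0 : ℝ)| := by
    rcases lt_or_gt_of_ne hane with h | h
    · exact ⟨-1, Or.inr rfl, by rw [abs_of_neg h]; ring⟩
    · exact ⟨1, Or.inl rfl, by rw [abs_of_pos h]; ring⟩
  have hεabs : |ε| = 1 := by
    rcases hε with h | h <;> rw [h] <;> simp
  refine ⟨ε, hε, fun k hk => ?_⟩
  have hk0 : (0 : ℝ) < (k : ℝ) + 1 := by positivity
  set x : ℝ := 1 / ((k : ℝ) + 1) with hx
  have hx0 : 0 < x := by positivity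
  have hx1 : x ≤ 1 := by
    rw [hx, div_le_one hk0]
    linarith [Nat.cast_nonneg (α := ℝ) k]
  have hkx : ((k : ℝ) + 1) * x = 1 := by rw [hx]; field_simp
  set K : ℝ := 1 / G * ((k : ℝ) + 1) with hK
  have hK0 : 0 ≤ K := by positivity
  have h2 := eval_low P i0 hmin hx0.le hx1
  have h3 : (P.map (algebraMap ℚ ℝ)).eval x =
      ∑ u ∈ U, (c u : ℝ) * ((q u).map (algebraMap ℚ ℝ)).eval x := by
    rw [hP, Polynomial.map_sum, Polynomial.eval_finset_sum]
    refine Finset.sum_congr rfl fun u _ => ?_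
    rw [Polynomial.map_mul, Polynomial.map_C, Polynomial.eval_mul, Polynomial.eval_C]
    simp
  have h4 : ∑ u ∈ U, (c u : ℝ) * T (nw u) k = (P.map (algebraMap ℚ ℝ)).eval x +
      ∑ u ∈ U, (c u : ℝ) * (T (nw u) k - ((q u).map (algebraMap ℚ ℝ)).eval x) := by
    rw [h3, ← Finset.sum_add_distrib]
    refine Finset.sum_congr rfl fun u _ => ?_
    ring
  have h5 : |∑ u ∈ U, (c u : ℝ) * (T (nw u) k - ((q u).map (algebraMap ℚ ℝ)).eval x)| ≤
      K * B * x ^ (i0 + 1) := by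
    refine (Finset.abs_sum_le_sum_abs _ _).trans ?_
    rw [hB, Finset.mul_sum, Finset.sum_mul]
    refine Finset.sum_le_sum fun u hu => ?_
    rw [abs_mul, mul_assoc]
    refine mul_le_mul (hk u hu) ((hC u k).trans ?_) (abs_nonneg _) hK0
    have h6 : C u / ((k : ℝ) + 1) ^ M = C u * x ^ M := by
      rw [hx, one_div, inv_pow, div_eq_mul_inv]
    rw [h6]
    exact mul_le_mul_of_nonneg_left (pow_le_pow_of_le_one hx0.le hx1 (by omega)) (hC0 u)
  have h7 := hA' K hk hK0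
  have h8 : |∑ u ∈ U, (c u : ℝ) * T (nw u) k - (P.coeff i0 : ℝ) * x ^ i0| ≤
      (K * ((N + 1 : ℝ) * A + B)) * x ^ (i0 + 1) := by
    have e : ∑ u ∈ U, (c u : ℝ) * T (nw u) k - (P.coeff i0 : ℝ) * x ^ i0 =
        ((P.map (algebraMap ℚ ℝ)).eval x - (P.coeff i0 : ℝ) * x ^ i0) +
        ∑ u ∈ U, (c u : ℝ) * (T (nw u) k - ((q u).map (algebraMap ℚ ℝ)).eval x) := by
      rw [h4]; ring
    rw [e]
    refine (abs_add_le _ _).trans ?_
    have h9 : (∑ i ∈ range (P.natDegree + 1), |(P.coeff i : ℝ)|) * x ^ (i0 + 1) ≤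
        (N + 1 : ℝ) * (K * A) * x ^ (i0 + 1) :=
      mul_le_mul_of_nonneg_right h7 (by positivity)
    calc _ ≤ (N + 1 : ℝ) * (K * A) * x ^ (i0 + 1) + K * B * x ^ (i0 + 1) :=
          add_le_add (h2.trans h9) h5
      _ = _ := by ring
  have h10 : K * ((N + 1 : ℝ) * A + B) * x ^ (i0 + 1) ≤ 1 / (2 * D) * x ^ i0 := by
    have e : K * ((N + 1 : ℝ) * A + B) * x ^ (i0 + 1) =
        (1 / G * ((N + 1 : ℝ) * A + B)) * x ^ i0 * (((k : ℝ) + 1) * x) := by
      rw [hK, pow_succ]; ring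
    rw [e, hkx, mul_one]
    apply mul_le_mul_of_nonneg_right _ (by positivity)
    rw [hG, div_mul_eq_mul_div, one_mul, div_le_div_iff₀ (by positivity) (by positivity)]
    nlinarith [hA0, hB0]
  have h11 : ε * ∑ u ∈ U, (c u : ℝ) * T (nw u) k =
      |(P.coeff i0 : ℝ)| * x ^ i0 +
        ε * (∑ u ∈ U, (c u : ℝ) * T (nw u) k - (P.coeff i0 : ℝ) * x ^ i0) := by
    rw [← hεa]; ring
  have h12 : -(1 / (2 * D) * x ^ i0) ≤
      ε * (∑ u ∈ U, (c u : ℝ) * T (nw u) k - (P.coeff i0 : ℝ) * x ^ i0) := by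
    have h13 : |ε * (∑ u ∈ U, (c u : ℝ) * T (nw u) k - (P.coeff i0 : ℝ) * x ^ i0)| ≤
        1 / (2 * D) * x ^ i0 := by
      rw [abs_mul, hεabs, one_mul]
      exact h8.trans h10
    exact (abs_le.1 h13).1
  rw [h11]
  have h14 : 1 / (D : ℝ) * x ^ i0 ≤ |(P.coeff i0 : ℝ)| * x ^ i0 :=
    mul_le_mul_of_nonneg_right hlow (by positivity)
  have h15 : 1 / G / ((k : ℝ) + 1) ^ M ≤ 1 / (2 * D) * x ^ i0 := by
    have e : 1 / G / ((k : ℝ) + 1) ^ M = 1 / G * x ^ M := by
      rw [hx, one_div ((k : ℝ) + 1), inv_pow, div_eq_mul_inv]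
    rw [e]
    refine mul_le_mul ?_ (pow_le_pow_of_le_one hx0.le hx1 (by omega)) (by positivity) (by positivity)
    rw [hG]
    apply one_div_le_one_div_of_le (by positivity)
    have : 0 ≤ (N + 1 : ℝ) * A + B := by positivity
    nlinarith
  have h16 : 1 / (D : ℝ) * x ^ i0 = 1 / (2 * D) * x ^ i0 + 1 / (2 * D) * x ^ i0 := by
    field_simp
    ring
  linarith

end Pool.Agent.Helper13K9.CS
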