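import Mathlib
import Pool.Agent.Helper13K9.CS.Sign

/-!
# The values of the words with a common last part
-/

set_option autoImplicit false

namespace Pool.Agent.Helper13K9.CS

open Filter Topology Finset
open Pool.Agent.Q217.TT (ep ep_nil ep_self ep_nonneg ep_succ ep_left ep_anti ep_mono H_app ep_two_le' ep_pos)
open Pool.Agent.H447R2.MZ (H H_nil H_cons H_cons_zero H_cons_succ H_nonneg Adm val tendsto_H H_le_val H_bdd H_mono)

/-- the multiple zeta value of `p a t` as a sum over the variable of `a` -/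
lemma hasSum_split (p : List ℕ) (hp : Adm p) (a : ℕ) (t : List ℕ) (h : Adm (p ++ a :: t)) :
    HasSum (fun n => H t n * (((n + 1 : ℕ) : ℝ) ^ a)⁻¹ * T p (n + 1)) (val (p ++ a :: t)) := by
  have hf : ∀ n : ℕ, 0 ≤ H t n * (((n + 1 : ℕ) : ℝ) ^ a)⁻¹ := fun n =>
    mul_nonneg (H_nonneg _ _) (by positivity)
  rw [hasSum_iff_tendsto_nat_of_nonneg (fun n => mul_nonneg (hf n) (T_nonneg p hp _))]
  refine tendsto_of_tendsto_of_tendsto_of_le_of_le (tendsto_H _ h) tendsto_const_nhds ?_ ?_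
  · intro N
    show H (p ++ a :: t) N ≤ _
    rw [H_app]
    exact Finset.sum_le_sum fun n _ => mul_le_mul_of_nonneg_left (ep_le_T p hp _ _) (hf n)
  · intro N
    show ∑ n ∈ range N, H t n * (((n + 1 : ℕ) : ℝ) ^ a)⁻¹ * T p (n + 1) ≤ val (p ++ a :: t)
    have h1 : Tendsto (fun N' => ∑ n ∈ range N, H t n * (((n + 1 : ℕ) : ℝ) ^ a)⁻¹ * ep p (n + 1) N') atTop
        (𝓝 (∑ n ∈ range N, H t n * (((n + 1 : ℕ) : ℝ) ^ a)⁻¹ * T p (n + 1))) :=
      tendsto_finsetSum _ fun n _ => (tend p hp (n + 1)).const_mul _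
    refine le_of_tendsto h1 (eventually_atTop.2 ⟨N, fun N' hN' => ?_⟩)
    refine le_trans ?_ (H_le_val _ h N')
    rw [H_app]
    refine Finset.sum_le_sum_of_subset_of_nonneg (fun x hx => ?_) fun n _ _ =>
      mul_nonneg (hf n) (ep_nonneg _ _ _)
    rw [Finset.mem_range] at hx ⊢
    omega

lemma H_small (t : List ℕ) : ∀ n < t.length, H t n = 0 := by
  induction t with
  | nil => intro n hn; simp at hn
  | cons a t ih =>
    intro n hn
    rw [H_cons]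
    refine Finset.sum_eq_zero fun m hm => ?_
    rw [Finset.mem_range] at hm
    rw [List.length_cons] at hn
    rw [ih m (by omega), mul_zero]

lemma H_len_pos (t : List ℕ) : 0 < H t t.length := by
  rw [← ep_zero]
  have h := ep_pos t 0
  rwa [zero_add] at h

lemma val_pos {t : List ℕ} (ht : Adm t) : 0 < val t :=
  lt_of_lt_of_le (H_len_pos t) (H_le_val t ht _)

lemma adm_cons {a : ℕ} {t : List ℕ} (ha : 2 ≤ a) (ht : ∀ x ∈ t, 1 ≤ x) : Adm (a :: t) := by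
  refine ⟨fun x hx => ?_, fun x t' h => ?_⟩
  · rcases List.mem_cons.1 hx with rfl | h
    · omega
    · exact ht x h
  · rw [List.cons.injEq] at h
    omega

/-- **The linear forms in the words with a common last part.** -/
theorem fin1 (hE : S_EXPL) (hI : S_INDL) (U : Finset (List ℕ)) : ∃ (κ : ℝ) (M : ℕ), 0 < κ ∧ 1 ≤ M ∧
    ∀ c : List ℕ → ℤ, (∃ u ∈ U, c u ≠ 0) → ∃ ε : ℝ, (ε = 1 ∨ ε = -1) ∧
      ∀ (a : ℕ) (t : List ℕ), 1 ≤ a → (∀ x ∈ t, 1 ≤ x) → (∀ u ∈ U, Adm (nw u ++ a :: t)) →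
        (∀ u ∈ U, |(c u : ℝ)| ≤ κ * ((t.length : ℝ) + 1)) →
        κ * val ((a + M) :: t) ≤ ε * ∑ u ∈ U, (c u : ℝ) * val (nw u ++ a :: t) := by
  obtain ⟨κ, M, hκ, h⟩ := sign hE hI U
  have hκM : κ / 2 ^ M ≤ κ := div_le_self hκ.le (one_le_pow₀ (by norm_num))
  refine ⟨κ / 2 ^ M, M + 1, by positivity, by omega, fun c hc => ?_⟩
  obtain ⟨ε, hε, h1⟩ := h c hc
  refine ⟨ε, hε, fun a t ha ht hadm hb => ?_⟩
  have hs1 : HasSum (fun n => ε * ∑ u ∈ U, (c u : ℝ) *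
      (H t n * (((n + 1 : ℕ) : ℝ) ^ a)⁻¹ * T (nw u) (n + 1)))
      (ε * ∑ u ∈ U, (c u : ℝ) * val (nw u ++ a :: t)) :=
    (hasSum_sum fun u hu => (hasSum_split (nw u) (adm_nw u) a t (hadm u hu)).mul_left _).mul_left _
  have hadm2 : Adm ([] ++ (a + (M + 1)) :: t) := adm_cons (by omega) ht
  have hs2 := (hasSum_split [] adm_nil (a + (M + 1)) t hadm2).mul_left (κ / 2 ^ M)
  rw [List.nil_append] at hs2
  refine hasSum_le (fun n => ?_) hs2 hs1
  rw [T_nil, mul_one]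
  rcases Nat.lt_or_ge n t.length with hn | hn
  · rw [H_small t n hn]
    simp
  have hn' : (t.length : ℝ) ≤ n := by exact_mod_cast hn
  have h2 := h1 (n + 1) (fun u hu => (hb u hu).trans ?_)
  · have e1 : ε * ∑ u ∈ U, (c u : ℝ) * (H t n * (((n + 1 : ℕ) : ℝ) ^ a)⁻¹ * T (nw u) (n + 1)) =
        (H t n * (((n + 1 : ℕ) : ℝ) ^ a)⁻¹) * (ε * ∑ u ∈ U, (c u : ℝ) * T (nw u) (n + 1)) := by
      rw [Finset.mul_sum, Finset.mul_sum, Finset.mul_sum]
      exact Finset.sum_congr rfl fun u _ => by ring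
    rw [e1]
    have hf : 0 ≤ H t n * (((n + 1 : ℕ) : ℝ) ^ a)⁻¹ := mul_nonneg (H_nonneg _ _) (by positivity)
    refine le_trans ?_ (mul_le_mul_of_nonneg_left h2 hf)
    have e2 : κ / 2 ^ M * (H t n * (((n + 1 : ℕ) : ℝ) ^ (a + (M + 1)))⁻¹) =
        (H t n * (((n + 1 : ℕ) : ℝ) ^ a)⁻¹) * (κ / 2 ^ M * (((n + 1 : ℕ) : ℝ) ^ (M + 1))⁻¹) := by
      rw [pow_add, mul_inv]
      ring
    rw [e2]
    refine mul_le_mul_of_nonneg_left ?_ hf
    rw [← div_eq_mul_inv, div_div]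
    refine div_le_div_of_nonneg_left hκ.le (by positivity) ?_
    have h3 : (((n + 1 : ℕ) : ℝ) + 1) ≤ 2 * ((n + 1 : ℕ) : ℝ) := by
      push_cast
      linarith [Nat.cast_nonneg (α := ℝ) n]
    have h4 : (1 : ℝ) ≤ ((n + 1 : ℕ) : ℝ) := by
      push_cast
      linarith [Nat.cast_nonneg (α := ℝ) n]
    calc (((n + 1 : ℕ) : ℝ) + 1) ^ M ≤ (2 * ((n + 1 : ℕ) : ℝ)) ^ M :=
          pow_le_pow_left₀ (by positivity) h3 M
      _ = 2 ^ M * ((n + 1 : ℕ) : ℝ) ^ M := mul_pow _ _ _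
      _ ≤ 2 ^ M * ((n + 1 : ℕ) : ℝ) ^ (M + 1) :=
          mul_le_mul_of_nonneg_left (pow_le_pow_right₀ h4 (Nat.le_succ M)) (by positivity)
  · refine mul_le_mul hκM ?_ (by positivity) hκ.le
    push_cast
    linarith

end Pool.Agent.Helper13K9.CS
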