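import Pool.Agent.Helper13K9.CS.Defs
import Pool.Agent.TH507.ZS.HSb

/-!
# Leaf INDL (helper30): linear independence modulo rapidly decreasing sequences
-/

set_option autoImplicit false

namespace Pool.Agent.Helper13K9.CS
namespace IndlL

open Filter Topology Polynomial Pool.Agent.TH507.HS

theorem kp (k : ℕ) : (0 : ℝ) < (k : ℝ) + 1 := by positivity

theorem kp1 (k : ℕ) : (1 : ℝ) ≤ (k : ℝ) + 1 := by
  have : (0 : ℝ) ≤ k := Nat.cast_nonneg k
  linarith

/-- polynomially bounded -/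
def IsPB (f : ℕ → ℝ) : Prop := ∃ (C : ℝ) (d : ℕ), 0 ≤ C ∧ ∀ k : ℕ, |f k| ≤ C * ((k : ℝ) + 1) ^ d

/-- rapidly decreasing -/
def IsRD (f : ℕ → ℝ) : Prop := ∀ M : ℕ, ∃ C : ℝ, 0 ≤ C ∧ ∀ k : ℕ, |f k| ≤ C / ((k : ℝ) + 1) ^ M

theorem IsPB.of {f : ℕ → ℝ} (h : ∃ (C : ℝ) (d : ℕ), ∀ k : ℕ, |f k| ≤ C * ((k : ℝ) + 1) ^ d) :
    IsPB f := by
  obtain ⟨C, d, h⟩ := h
  refine ⟨|C|, d, abs_nonneg C, fun k => (h k).trans ?_⟩
  have := kp k
  exact mul_le_mul_of_nonneg_right (le_abs_self C) (by positivity)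

theorem IsPB.add {f g : ℕ → ℝ} (hf : IsPB f) (hg : IsPB g) : IsPB (fun k => f k + g k) := by
  obtain ⟨C, d, hC0, hC⟩ := hf
  obtain ⟨D, e, hD0, hD⟩ := hg
  refine ⟨C + D, d + e, by positivity, fun k => (abs_add_le _ _).trans ?_⟩
  have h1 := kp1 k
  have h2 : ((k : ℝ) + 1) ^ d ≤ ((k : ℝ) + 1) ^ (d + e) := pow_le_pow_right₀ h1 (by omega)
  have h3 : ((k : ℝ) + 1) ^ e ≤ ((k : ℝ) + 1) ^ (d + e) := pow_le_pow_right₀ h1 (by omega)
  rw [add_mul]
  exact add_le_add ((hC k).trans (mul_le_mul_of_nonneg_left h2 hC0))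
    ((hD k).trans (mul_le_mul_of_nonneg_left h3 hD0))

theorem IsPB.mul {f g : ℕ → ℝ} (hf : IsPB f) (hg : IsPB g) : IsPB (fun k => f k * g k) := by
  obtain ⟨C, d, hC0, hC⟩ := hf
  obtain ⟨D, e, hD0, hD⟩ := hg
  refine ⟨C * D, d + e, by positivity, fun k => ?_⟩
  have := kp k
  rw [abs_mul, pow_add]
  calc |f k| * |g k| ≤ (C * ((k : ℝ) + 1) ^ d) * (D * ((k : ℝ) + 1) ^ e) :=
        mul_le_mul (hC k) (hD k) (abs_nonneg _) (by positivity)
    _ = C * D * (((k : ℝ) + 1) ^ d * ((k : ℝ) + 1) ^ e) := by ring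

theorem IsPB.neg {f : ℕ → ℝ} (hf : IsPB f) : IsPB (fun k => -f k) := by
  obtain ⟨C, d, hC0, hC⟩ := hf
  exact ⟨C, d, hC0, fun k => by rw [abs_neg]; exact hC k⟩

theorem IsPB_const (c : ℝ) : IsPB (fun _ => c) := ⟨|c|, 0, abs_nonneg c, fun k => by simp⟩

theorem IsRD.add {f g : ℕ → ℝ} (hf : IsRD f) (hg : IsRD g) : IsRD (fun k => f k + g k) := by
  intro M
  obtain ⟨C, hC0, hC⟩ := hf M
  obtain ⟨D, hD0, hD⟩ := hg M
  refine ⟨C + D, by positivity, fun k => (abs_add_le _ _).trans ?_⟩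
  rw [add_div]
  exact add_le_add (hC k) (hD k)

theorem IsRD.mul {f g : ℕ → ℝ} (hf : IsPB f) (hg : IsRD g) : IsRD (fun k => f k * g k) := by
  intro M
  obtain ⟨C, d, hC0, hC⟩ := hf
  obtain ⟨D, hD0, hD⟩ := hg (M + d)
  refine ⟨C * D, by positivity, fun k => ?_⟩
  have := kp k
  rw [abs_mul]
  calc |f k| * |g k| ≤ (C * ((k : ℝ) + 1) ^ d) * (D / ((k : ℝ) + 1) ^ (M + d)) :=
        mul_le_mul (hC k) (hD k) (abs_nonneg _) (by positivity)
    _ = C * D / ((k : ℝ) + 1) ^ M := by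
        rw [pow_add]
        field_simp

/-- the ring of the polynomially bounded sequences -/
def PB : Subring (ℕ → ℝ) where
  carrier := {f | IsPB f}
  mul_mem' := IsPB.mul
  one_mem' := IsPB_const 1
  add_mem' := IsPB.add
  zero_mem' := IsPB_const 0
  neg_mem' := IsPB.neg

/-- the ideal of the rapidly decreasing sequences -/
def RD : Ideal PB where
  carrier := {f | IsRD f.1}
  add_mem' := IsRD.add
  zero_mem' := fun M => ⟨0, le_rfl, fun k => by simp⟩
  smul_mem' c f hf := IsRD.mul c.2 hf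

theorem mem_RD {f : PB} : f ∈ RD ↔ IsRD f.1 := Iff.rfl

/-- eventually zero sequences are rapidly decreasing -/
theorem rd_of_ev {f : ℕ → ℝ} (h : ∀ᶠ k in atTop, f k = 0) : IsRD f := by
  obtain ⟨N, hN⟩ := eventually_atTop.1 h
  intro M
  refine ⟨∑ j ∈ Finset.range N, |f j| * ((j : ℝ) + 1) ^ M, Finset.sum_nonneg fun j _ => by
    have := kp j
    positivity, fun k => ?_⟩
  have hk := kp k
  rw [le_div_iff₀ (by positivity)]
  rcases lt_or_ge k N with h1 | h1
  · exact Finset.single_le_sum (f := fun j : ℕ => |f j| * ((j : ℝ) + 1) ^ M) (fun j _ => by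
      have := kp j
      positivity) (Finset.mem_range.2 h1)
  · rw [hN k h1, abs_zero, zero_mul]
    exact Finset.sum_nonneg fun j _ => by
      have := kp j
      positivity

/-- values of integral polynomials -/
noncomputable def er (A : ℤ[X]) (k : ℕ) : ℝ := ((A.eval ((k : ℤ) + 1) : ℤ) : ℝ)

theorem er_pb (A : ℤ[X]) : IsPB (er A) := by
  induction A using Polynomial.induction_on' with
  | add p q hp hq =>
    have : er (p + q) = fun k => er p k + er q k := by
      funext k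
      simp [er]
    rw [this]
    exact hp.add hq
  | monomial n a =>
    refine ⟨|(a : ℝ)|, n, abs_nonneg _, fun k => ?_⟩
    have := kp k
    unfold er
    rw [eval_monomial]
    push_cast
    rw [abs_mul, abs_of_pos (show (0 : ℝ) < ((k : ℝ) + 1) ^ n by positivity)]

theorem er_ev {B : ℤ[X]} (hB : B ≠ 0) : ∀ᶠ k in atTop, er B k ≠ 0 := by
  obtain ⟨N, hN⟩ := ev_ne_zero hB
  filter_upwards [eventually_ge_atTop N] with k hk
  have := hN (k + 1) (by omega)
  unfold er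
  push_cast at this
  exact_mod_cast this

theorem er_abs {B : ℤ[X]} {k : ℕ} (h : er B k ≠ 0) : 1 ≤ |er B k| := by
  unfold er at h ⊢
  have h1 : (B.eval ((k : ℤ) + 1)) ≠ 0 := by exact_mod_cast h
  have h2 : 1 ≤ |B.eval ((k : ℤ) + 1)| := Int.one_le_abs h1
  exact_mod_cast h2

/-- quotients of polynomials -/
theorem rat_pb (A B : ℤ[X]) : IsPB (fun k => er A k / er B k) := by
  obtain ⟨C, d, hC0, hC⟩ := er_pb A
  refine ⟨C, d, hC0, fun k => ?_⟩
  show |er A k / er B k| ≤ _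
  by_cases h : er B k = 0
  · rw [h, div_zero, abs_zero]
    have := kp k
    positivity
  · rw [abs_div]
    exact (div_le_self (abs_nonneg _) (er_abs h)).trans (hC k)

/-- a sequence which is eventually rational function -/
def IsK (f : ℕ → ℝ) : Prop := ∃ A B : ℤ[X], B ≠ 0 ∧ ∀ᶠ k in atTop, f k = er A k / er B k

theorem er_add (A B : ℤ[X]) (k : ℕ) : er (A + B) k = er A k + er B k := by simp [er]
theorem er_mul (A B : ℤ[X]) (k : ℕ) : er (A * B) k = er A k * er B k := by simp [er]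
theorem er_neg (A : ℤ[X]) (k : ℕ) : er (-A) k = -er A k := by simp [er]
theorem er_one (k : ℕ) : er 1 k = 1 := by simp [er]
theorem er_zero (k : ℕ) : er 0 k = 0 := by simp [er]

theorem IsK.add {f g : ℕ → ℝ} (hf : IsK f) (hg : IsK g) : IsK (fun k => f k + g k) := by
  obtain ⟨A, B, hB, h1⟩ := hf
  obtain ⟨A', B', hB', h2⟩ := hg
  refine ⟨A * B' + B * A', B * B', mul_ne_zero hB hB', ?_⟩
  filter_upwards [h1, h2, er_ev hB, er_ev hB'] with k h3 h4 h5 h6
  rw [h3, h4, er_add, er_mul, er_mul, er_mul, div_add_div _ _ h5 h6]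

theorem IsK.mul {f g : ℕ → ℝ} (hf : IsK f) (hg : IsK g) : IsK (fun k => f k * g k) := by
  obtain ⟨A, B, hB, h1⟩ := hf
  obtain ⟨A', B', hB', h2⟩ := hg
  refine ⟨A * A', B * B', mul_ne_zero hB hB', ?_⟩
  filter_upwards [h1, h2] with k h3 h4
  rw [h3, h4, er_mul, er_mul, div_mul_div_comm]

theorem IsK.neg {f : ℕ → ℝ} (hf : IsK f) : IsK (fun k => -f k) := by
  obtain ⟨A, B, hB, h1⟩ := hf
  refine ⟨-A, B, hB, ?_⟩
  filter_upwards [h1] with k h3
  rw [h3, er_neg, neg_div]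

theorem IsK.sub {f g : ℕ → ℝ} (hf : IsK f) (hg : IsK g) : IsK (fun k => f k - g k) := by
  simpa only [sub_eq_add_neg] using hf.add hg.neg

theorem IsK_const (q : ℚ) : IsK (fun _ => (q : ℝ)) := by
  refine ⟨C q.num, C (q.den : ℤ), by simp, Eventually.of_forall fun k => ?_⟩
  simp only [er, eval_C]
  push_cast
  exact_mod_cast (Rat.num_div_den q).symm

theorem IsK.shift {f : ℕ → ℝ} (hf : IsK f) : IsK (fun k => f (k + 1)) := by
  obtain ⟨A, B, hB, h1⟩ := hf
  have hc : ∀ (P : ℤ[X]) (k : ℕ), er (P.comp (X + C 1)) k = er P (k + 1) := by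
    intro P k
    unfold er
    rw [eval_comp]
    simp
  refine ⟨A.comp (X + C 1), B.comp (X + C 1), ?_, ?_⟩
  · intro h
    apply hB
    have h1 : (B.comp (X + C 1)).comp (X - C 1) = B := by
      rw [comp_assoc]
      simp
    rw [← h1, h, zero_comp]
  · have := (tendsto_add_atTop_nat 1).eventually h1
    filter_upwards [this] with k hk
    rw [hk, hc, hc]

theorem IsK_sum {ι : Type} (s : Finset ι) {f : ι → ℕ → ℝ} (h : ∀ i ∈ s, IsK (f i)) :
    IsK (fun k => ∑ i ∈ s, f i k) := by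
  classical
  induction s using Finset.induction_on with
  | empty => simpa using IsK_const 0
  | insert a s ha ih =>
    simp only [Finset.sum_insert ha]
    exact (h a (Finset.mem_insert_self a s)).add
      (ih fun i hi => h i (Finset.mem_insert_of_mem hi))

/-- a rational function which decreases rapidly vanishes -/
theorem IsK.ev_zero {f : ℕ → ℝ} (hf : IsK f) (h : IsRD f) : ∀ᶠ k in atTop, f k = 0 := by
  obtain ⟨A, B, hB, h1⟩ := hf
  by_cases hA : A = 0
  · filter_upwards [h1] with k hk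
    rw [hk, hA, er_zero, zero_div]
  exfalso
  obtain ⟨C, d, hC0, hC⟩ := er_pb B
  obtain ⟨D, hD0, hD⟩ := h (d + 1)
  obtain ⟨N, hN⟩ := exists_nat_gt (C * D)
  obtain ⟨k, ⟨h2, h3, h4⟩, h5⟩ := ((h1.and ((er_ev hA).and (er_ev hB))).and
    (eventually_ge_atTop N)).exists
  have h6 := hD k
  have hk := kp k
  rw [h2, abs_div, div_le_div_iff₀ (abs_pos.2 h4) (by positivity)] at h6
  have h7 := hC k
  have h8 := er_abs h3
  have h9 : ((k : ℝ) + 1) ^ (d + 1) ≤ D * (C * ((k : ℝ) + 1) ^ d) := by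
    calc ((k : ℝ) + 1) ^ (d + 1) ≤ |er A k| * ((k : ℝ) + 1) ^ (d + 1) :=
          le_mul_of_one_le_left (by positivity) h8
      _ ≤ D * |er B k| := h6
      _ ≤ D * (C * ((k : ℝ) + 1) ^ d) := mul_le_mul_of_nonneg_left h7 hD0
  have h10 : ((k : ℝ) + 1) ^ d * ((k : ℝ) + 1) ≤ ((k : ℝ) + 1) ^ d * (C * D) := by
    rw [← pow_succ]
    linarith
  have h11 := le_of_mul_le_mul_left h10 (by positivity)
  have h12 : (N : ℝ) ≤ k := by exact_mod_cast h5
  linarith

/-- the shift -/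
def Sh : PB →+* PB where
  toFun f := ⟨fun k => f.1 (k + 1), by
    obtain ⟨C, d, hC0, hC⟩ := f.2
    refine ⟨C * 2 ^ d, d, by positivity, fun k => (hC (k + 1)).trans ?_⟩
    have := kp k
    push_cast
    rw [mul_assoc, ← mul_pow]
    refine mul_le_mul_of_nonneg_left (pow_le_pow_left₀ (by positivity) ?_ d) hC0
    have := kp1 k
    linarith⟩
  map_one' := rfl
  map_mul' _ _ := rfl
  map_zero' := rfl
  map_add' _ _ := rfl

theorem Sh_RD : RD ≤ RD.comap Sh := by
  intro f hf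
  rw [Ideal.mem_comap, mem_RD]
  intro M
  obtain ⟨C, hC0, hC⟩ := (mem_RD.1 hf) M
  refine ⟨C, hC0, fun k => (hC (k + 1)).trans ?_⟩
  have := kp k
  refine div_le_div_of_nonneg_left hC0 (by positivity) (pow_le_pow_left₀ this.le ?_ M)
  push_cast
  linarith

/-- the quotient -/
abbrev Q : Type := PB ⧸ RD

/-- the shift on the quotient -/
def sg : Q →+* Q := Ideal.quotientMap RD Sh Sh_RD

theorem sg_mk (f : PB) : sg (Ideal.Quotient.mk RD f) = Ideal.Quotient.mk RD (Sh f) :=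
  Ideal.quotientMap_mk

/-- the constants -/
def kc : ℚ →+* PB where
  toFun q := ⟨fun _ => (q : ℝ), IsPB_const _⟩
  map_one' := by
    apply Subtype.ext
    funext k
    simp
  map_mul' a b := by
    apply Subtype.ext
    funext k
    simp
  map_zero' := by
    apply Subtype.ext
    funext k
    simp
  map_add' a b := by
    apply Subtype.ext
    funext k
    simp

/-- the rational functions -/
def KP : Subring PB where
  carrier := {f | IsK f.1}
  mul_mem' := IsK.mul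
  one_mem' := by
    have h := IsK_const 1
    have h1 : (fun _ : ℕ => ((1 : ℚ) : ℝ)) = (1 : PB).1 := by
      funext k
      simp
    show IsK (1 : PB).1
    rw [← h1]
    exact h
  add_mem' := IsK.add
  zero_mem' := by
    have h := IsK_const 0
    have h1 : (fun _ : ℕ => ((0 : ℚ) : ℝ)) = (0 : PB).1 := by
      funext k
      simp
    show IsK (0 : PB).1
    rw [← h1]
    exact h
  neg_mem' := IsK.neg

/-- the rational functions in the quotient -/
def KQ : Subring Q := KP.map (Ideal.Quotient.mk RD)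

theorem mk_eq {f g : PB} (h : ∀ᶠ k in atTop, f.1 k = g.1 k) :
    Ideal.Quotient.mk RD f = Ideal.Quotient.mk RD g := by
  rw [Ideal.Quotient.mk_eq_mk_iff_sub_mem, mem_RD]
  refine rd_of_ev ?_
  filter_upwards [h] with k hk
  show f.1 k - g.1 k = 0
  rw [hk, sub_self]

/-- the letters -/
noncomputable def fa (a : ℕ) : PB := ⟨fun k => er (-1) k / er (X ^ (a + 2)) k, rat_pb _ _⟩

theorem fa_apply (a k : ℕ) : (fa a).1 k = -(((k + 1 : ℕ) : ℝ) ^ (a + 2))⁻¹ := by
  simp only [fa, er_neg, er_one]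
  have : er (X ^ (a + 2)) k = ((k + 1 : ℕ) : ℝ) ^ (a + 2) := by
    simp [er]
  rw [this, neg_div, one_div]

section main

variable (y : List ℕ → ℕ → ℝ)
  (hy : ∀ w, ∃ (C : ℝ) (d : ℕ), ∀ k : ℕ, |y w k| ≤ C * ((k : ℝ) + 1) ^ d)

/-- the words in the quotient -/
def Y (w : List ℕ) : Q := Ideal.Quotient.mk RD ⟨y w, IsPB.of (hy w)⟩

variable (h0 : ∀ k, y [] k = 1)
  (hr : ∀ a w k, y (a :: w) k = y (a :: w) (k + 1) + (((k + 1 : ℕ) : ℝ) ^ (a + 2))⁻¹ * y w (k + 1))

include hr in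
theorem Y_rec (a : ℕ) (w : List ℕ) : sg (Y y hy (a :: w)) - Y y hy (a :: w) =
    Ideal.Quotient.mk RD (fa a) * sg (Y y hy w) := by
  unfold Y
  rw [sg_mk, sg_mk, ← map_sub, ← map_mul]
  congr 1
  apply Subtype.ext
  funext k
  show y (a :: w) (k + 1) - y (a :: w) k = (fa a).1 k * y w (k + 1)
  rw [hr a w k, fa_apply]
  ring

include h0 in
theorem Y_nil : Y y hy [] = 1 := by
  unfold Y
  rw [← map_one (Ideal.Quotient.mk RD)]
  congr 1
  apply Subtype.ext
  funext k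
  exact h0 k

theorem fa_mem (a : ℕ) : Ideal.Quotient.mk RD (fa a) ∈ KQ :=
  ⟨fa a, ⟨-1, X ^ (a + 2), pow_ne_zero _ X_ne_zero, Eventually.of_forall fun _ => rfl⟩, rfl⟩

include h0 hr in
theorem Y_step (w : List ℕ) : sg (Y y hy w) - Y y hy w ∈ W KQ (Y y hy) w.length := by
  induction w with
  | nil =>
    rw [Y_nil y hy h0, map_one, sub_self]
    exact (W _ _ _).zero_mem
  | cons a w ih =>
    rw [Y_rec y hy hr]
    refine mul_mem_W (fa_mem a) ?_
    have h1 := W_mono (K := KQ) (y := Y y hy) (Nat.le_succ w.length) ih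
    have h2 : Y y hy w ∈ W KQ (Y y hy) (w.length + 1) := mem_W (Nat.lt_succ_self _)
    have h3 := (W _ _ _).add_mem h1 h2
    rwa [sub_add_cancel] at h3

include h0 hr in
theorem hypQ : Hyp KQ (Y y hy) sg (fun a => Ideal.Quotient.mk RD (fa a))
    ((Ideal.Quotient.mk RD).comp kc) where
  inv := by
    rintro _ ⟨f, ⟨A, B, hB, hf⟩, rfl⟩ hne
    have hA : A ≠ 0 := by
      rintro rfl
      apply hne
      rw [← map_zero (Ideal.Quotient.mk RD)]
      refine mk_eq ?_
      filter_upwards [hf] with k hk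
      rw [hk, er_zero, zero_div]
      rfl
    refine ⟨Ideal.Quotient.mk RD ⟨fun k => er B k / er A k, rat_pb B A⟩,
      ⟨_, ⟨B, A, hA, Eventually.of_forall fun _ => rfl⟩, rfl⟩, ?_⟩
    rw [← map_mul, ← map_one (Ideal.Quotient.mk RD)]
    refine mk_eq ?_
    filter_upwards [hf, er_ev hA, er_ev hB] with k h1 h2 h3
    show f.1 k * (er B k / er A k) = 1
    rw [h1]
    field_simp
  nontriv := by
    intro h
    rw [← map_one (Ideal.Quotient.mk RD), ← map_zero (Ideal.Quotient.mk RD),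
      Ideal.Quotient.mk_eq_mk_iff_sub_mem, sub_zero, mem_RD] at h
    have h1 : IsK (1 : PB).1 := KP.one_mem
    obtain ⟨k, hk⟩ := (h1.ev_zero h).exists
    exact one_ne_zero hk
  stable := by
    rintro _ ⟨f, hf, rfl⟩
    exact ⟨Sh f, IsK.shift hf, (sg_mk f).symm⟩
  fK := fa_mem
  const := by
    rintro _ ⟨f, hf, rfl⟩ hx
    rw [sg_mk, Ideal.Quotient.mk_eq_mk_iff_sub_mem, mem_RD] at hx
    have h1 : IsK (Sh f - f).1 := IsK.sub (IsK.shift hf) hf
    have h2 := h1.ev_zero hx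
    obtain ⟨A, B, hB, h3⟩ := hf
    obtain ⟨N, hN⟩ := eventually_atTop.1 (h2.and h3)
    refine ⟨((A.eval ((N : ℤ) + 1) : ℤ) : ℚ) / ((B.eval ((N : ℤ) + 1) : ℤ) : ℚ), ?_⟩
    rw [RingHom.comp_apply]
    refine mk_eq ?_
    filter_upwards [eventually_ge_atTop N] with k hk
    have h4 : f.1 k = f.1 N := by
      induction k, hk using Nat.le_induction with
      | base => rfl
      | succ k hk ih =>
        have h5 : f.1 (k + 1) - f.1 k = 0 := (hN k hk).1
        rw [← ih]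
        linarith
    rw [h4, (hN N le_rfl).2]
    show er A N / er B N =
      ((((A.eval ((N : ℤ) + 1) : ℤ) : ℚ) / ((B.eval ((N : ℤ) + 1) : ℤ) : ℚ) : ℚ) : ℝ)
    rw [Rat.cast_div, Rat.cast_intCast, Rat.cast_intCast]
    rfl
  nil := Y_nil y hy h0
  recu := by
    intro a w
    rw [Y_rec y hy hr, ← mul_sub]
    exact mul_mem_W (fa_mem a) (Y_step y hy h0 hr w)
  tel := by
    rintro U c ⟨a₀, ha₀, hca⟩ _ ⟨f, hf, rfl⟩ hrel
    have h1 : Ideal.Quotient.mk RD (Sh f - f - ∑ a ∈ U, kc (c a) * fa a) = 0 := by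
      rw [map_sub, map_sub, ← sg_mk, hrel, map_sum]
      simp
    rw [Ideal.Quotient.eq_zero_iff_mem, mem_RD] at h1
    have hval : ∀ k, (Sh f - f - ∑ a ∈ U, kc (c a) * fa a).1 k =
        f.1 (k + 1) - f.1 k - ∑ a ∈ U, (c a : ℝ) * (fa a).1 k := by
      intro k
      have e1 : (∑ a ∈ U, kc (c a) * fa a : PB).1 k = ∑ a ∈ U, (c a : ℝ) * (fa a).1 k := by
        have e2 : (∑ a ∈ U, kc (c a) * fa a : PB).1 = ∑ a ∈ U, (kc (c a) * fa a : PB).1 := by
          exact map_sum PB.subtype _ _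
        rw [e2, Finset.sum_apply]
        rfl
      show (Sh f).1 k - f.1 k - (∑ a ∈ U, kc (c a) * fa a : PB).1 k = _
      rw [e1]
      rfl
    have h2 : IsK (Sh f - f - ∑ a ∈ U, kc (c a) * fa a).1 := by
      have h3 := (IsK.sub (IsK.sub (IsK.shift hf) hf) (IsK_sum U (f := fun a k =>
        (c a : ℝ) * (fa a).1 k) (fun a _ => (IsK_const (c a)).mul
          ⟨-1, X ^ (a + 2), pow_ne_zero _ X_ne_zero, Eventually.of_forall fun _ => rfl⟩)))
      have h4 : (Sh f - f - ∑ a ∈ U, kc (c a) * fa a).1 =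
          fun k => f.1 (k + 1) - f.1 k - ∑ a ∈ U, (c a : ℝ) * (fa a).1 k := funext hval
      rw [h4]
      exact h3
    have h3 := h2.ev_zero h1
    obtain ⟨A, B, hB, h4⟩ := hf
    have h5 := (tendsto_add_atTop_nat 1).eventually h4
    obtain ⟨m0, hm0⟩ := eventually_atTop.1 (h3.and (h4.and h5))
    -- the letters as positive integers
    let φ : ℕ ↪ ℕ+ := ⟨fun a => ⟨a + 2, by omega⟩, fun a b hab => by
      have : a + 2 = b + 2 := congrArg PNat.val hab
      omega⟩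
    refine no_tel 1 le_rfl (U.map φ) (fun p => -c ((p : ℕ) - 2)) ⟨φ a₀, Finset.mem_map_of_mem φ ha₀, by
        show -c ((a₀ + 2 : ℕ) - 2) ≠ 0
        rw [Nat.add_sub_cancel]
        exact neg_ne_zero.2 hca⟩ A B hB m0 (fun m hm => ?_)
    obtain ⟨h6, h7, h8⟩ := hm0 m hm
    rw [hval, h7, h8] at h6
    rw [Finset.sum_map]
    have e1 : ∀ (P : ℤ[X]) (j : ℕ), ((ev P (1 + 1 * j) : ℚ) : ℝ) = er P j := by
      intro P j
      have h10 : ((1 + 1 * j : ℕ) : ℤ) = (j : ℤ) + 1 := by push_cast; ring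
      unfold ev er
      rw [h10, Rat.cast_intCast]
    have h9 : ((ev A (1 + 1 * (m + 1)) / ev B (1 + 1 * (m + 1)) -
        ev A (1 + 1 * m) / ev B (1 + 1 * m) : ℚ) : ℝ) =
        ((∑ a ∈ U, (-c (((φ a : ℕ+) : ℕ) - 2)) * ∑ j ∈ Finset.range 1,
          (1 / ((1 + 1 * m + j : ℕ) : ℚ)) ^ ((φ a : ℕ+) : ℕ) : ℚ) : ℝ) := by
      have hφ : ∀ a, ((φ a : ℕ+) : ℕ) = a + 2 := fun a => rfl
      rw [Rat.cast_sub, Rat.cast_div, Rat.cast_div, e1, e1, e1, e1]
      rw [sub_eq_zero.1 h6, Rat.cast_sum]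
      refine Finset.sum_congr rfl fun a _ => ?_
      rw [fa_apply, hφ, Nat.add_sub_cancel, Finset.range_one, Finset.sum_singleton]
      push_cast
      rw [one_div, inv_pow]
      ring_nf
    exact_mod_cast h9

end main

end IndlL

open IndlL Filter Topology Polynomial in
theorem indl : S_INDL := by
  intro y hy h0 hr U c hdec
  have H := hypQ y hy h0 hr
  have hsum : ∑ u ∈ U, (Ideal.Quotient.mk RD) (kc (c u)) * Y y hy u = 0 := by
    unfold Y
    simp only [← map_mul]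
    rw [← map_sum, Ideal.Quotient.eq_zero_iff_mem, mem_RD]
    have hval : (∑ u ∈ U, kc (c u) * ⟨y u, IsPB.of (hy u)⟩ : PB).1 =
        fun k => ∑ u ∈ U, (c u : ℝ) * y u k := by
      funext k
      have e2 : (∑ u ∈ U, kc (c u) * ⟨y u, IsPB.of (hy u)⟩ : PB).1 =
          ∑ u ∈ U, (kc (c u) * ⟨y u, IsPB.of (hy u)⟩ : PB).1 := map_sum PB.subtype _ _
      rw [e2, Finset.sum_apply]
      rfl
    rw [hval]
    intro M
    obtain ⟨C, hC⟩ := hdec M
    refine ⟨|C|, abs_nonneg C, fun k => (hC k).trans ?_⟩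
    have := kp k
    exact div_le_div_of_nonneg_right (le_abs_self C) (by positivity)
  obtain ⟨t, ht⟩ : ∃ t : ℕ, ∀ w ∈ U, w.length < t :=
    ⟨U.sup List.length + 1, fun w hw => Nat.lt_succ_of_le (Finset.le_sup hw)⟩
  intro u hu
  have h1 := H.indep t U (fun u => (Ideal.Quotient.mk RD) (kc (c u))) ht
    (fun w => ⟨kc (c w), IsK_const (c w), rfl⟩) hsum u hu
  rw [Ideal.Quotient.eq_zero_iff_mem, mem_RD] at h1
  have h2 : IsK (kc (c u)).1 := IsK_const (c u)
  obtain ⟨k, hk⟩ := (h2.ev_zero h1).exists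
  have h3 : ((c u : ℚ) : ℝ) = 0 := hk
  exact_mod_cast h3

end Pool.Agent.Helper13K9.CS
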