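import Mathlib
import Pool.Agent.Helper13K9.CS.Fin

/-!
# Words whose last parts have rapidly increasing lengths
-/

set_option autoImplicit false

namespace Pool.Agent.Helper13K9.CS

open Filter Topology Finset
open Pool.Agent.H447R2.MZ (H H_nil H_cons H_cons_zero H_cons_succ H_nonneg Adm val tendsto_H H_le_val H_bdd H_mono)

/-- partial sums of `∑ 1 / n ^ 2` -/
noncomputable def S2 (N : ℕ) : ℝ := ∑ n ∈ range N, (((n + 1 : ℕ) : ℝ) ^ 2)⁻¹

lemma S2_succ (N : ℕ) : S2 (N + 1) = S2 N + (((N + 1 : ℕ) : ℝ) ^ 2)⁻¹ := by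
  rw [S2, Finset.sum_range_succ, ← S2]

lemma S2_nonneg (N : ℕ) : 0 ≤ S2 N := Finset.sum_nonneg fun n _ => by positivity

lemma S2_le (N : ℕ) : S2 N ≤ 2 := by
  have h : ∀ N : ℕ, S2 (N + 1) ≤ 2 - 1 / ((N : ℝ) + 1) := by
    intro N
    induction N with
    | zero => simp [S2]; norm_num
    | succ N ih =>
      rw [S2_succ]
      have hN : (0 : ℝ) ≤ N := Nat.cast_nonneg N
      have h1 : (((N + 1 + 1 : ℕ) : ℝ) ^ 2)⁻¹ ≤ 1 / ((N : ℝ) + 1) - 1 / (((N + 1 : ℕ) : ℝ) + 1) := by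
        push_cast
        rw [div_sub_div _ _ (by positivity) (by positivity), inv_eq_one_div,
          div_le_div_iff₀ (by positivity) (by positivity)]
        nlinarith
      linarith
  have h1 := h N
  have h2 : (0 : ℝ) ≤ 1 / ((N : ℝ) + 1) := by positivity
  have h3 : (0 : ℝ) ≤ (((N + 1 : ℕ) : ℝ) ^ 2)⁻¹ := by positivity
  rw [S2_succ] at h1
  linarith

lemma binom {s x : ℝ} (hs : 0 ≤ s) (hx : 0 ≤ x) (k : ℕ) :
    s ^ (k + 1) + ((k : ℝ) + 1) * x * s ^ k ≤ (s + x) ^ (k + 1) := by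
  induction k with
  | zero => simp
  | succ k ih =>
    have h1 : (s + x) ^ (k + 1 + 1) = (s + x) ^ (k + 1) * (s + x) := pow_succ _ _
    have h2 := mul_le_mul_of_nonneg_right ih (add_nonneg hs hx)
    rw [h1]
    refine le_trans ?_ h2
    push_cast
    have h3 : 0 ≤ ((k : ℝ) + 1) * x * s ^ k * x := by positivity
    have e : (s ^ (k + 1) + ((k : ℝ) + 1) * x * s ^ k) * (s + x) =
        s ^ (k + 1 + 1) + ((k : ℝ) + 1 + 1) * x * s ^ (k + 1) + ((k : ℝ) + 1) * x * s ^ k * x := by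
      ring
    rw [e]
    linarith

lemma H_fac (w : List ℕ) (hw : ∀ x ∈ w, 2 ≤ x) (N : ℕ) :
    H w N ≤ S2 N ^ w.length / (w.length.factorial : ℝ) := by
  induction w generalizing N with
  | nil => rw [H_nil]; simp
  | cons a w ih =>
    induction N with
    | zero =>
      rw [H_cons_zero]
      exact div_nonneg (pow_nonneg (S2_nonneg _) _) (Nat.cast_nonneg _)
    | succ N ihN =>
      rw [H_cons_succ, List.length_cons, S2_succ]
      rw [List.length_cons] at ihN
      have h1 := ih (fun x hx => hw x (List.mem_cons_of_mem _ hx)) N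
      have h2 : (((N + 1 : ℕ) : ℝ) ^ a)⁻¹ ≤ (((N + 1 : ℕ) : ℝ) ^ 2)⁻¹ :=
        inv_anti₀ (by positivity) (pow_le_pow_right₀ (by
          push_cast
          linarith [Nat.cast_nonneg (α := ℝ) N]) (hw a List.mem_cons_self))
      set x : ℝ := (((N + 1 : ℕ) : ℝ) ^ 2)⁻¹ with hx
      have hx0 : 0 ≤ x := by positivity
      have hS := S2_nonneg N
      have hf : (0 : ℝ) < (w.length.factorial : ℝ) := by exact_mod_cast Nat.factorial_pos _
      have hl : (0 : ℝ) < (w.length : ℝ) + 1 := by positivity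
      have h3 : (((N + 1 : ℕ) : ℝ) ^ a)⁻¹ * H w N ≤ x * (S2 N ^ w.length / (w.length.factorial : ℝ)) :=
        mul_le_mul h2 h1 (H_nonneg _ _) hx0
      have h4 : S2 N ^ (w.length + 1) + ((w.length : ℝ) + 1) * x * S2 N ^ w.length ≤
          (S2 N + x) ^ (w.length + 1) := binom hS hx0 w.length
      have e : S2 N ^ (w.length + 1) / ((w.length + 1).factorial : ℝ) +
          x * (S2 N ^ w.length / (w.length.factorial : ℝ)) =
          (S2 N ^ (w.length + 1) + ((w.length : ℝ) + 1) * x * S2 N ^ w.length) /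
            ((w.length + 1).factorial : ℝ) := by
        rw [Nat.factorial_succ]
        push_cast
        field_simp
      calc _ ≤ S2 N ^ (w.length + 1) / ((w.length + 1).factorial : ℝ) +
          x * (S2 N ^ w.length / (w.length.factorial : ℝ)) := add_le_add ihN h3
        _ = _ := e
        _ ≤ _ := div_le_div_of_nonneg_right h4 (Nat.cast_nonneg _)

lemma H_low (L : ℕ) (w : List ℕ) (hw : ∀ x ∈ w, x ≤ L) :
    (((w.length.factorial : ℕ) : ℝ) ^ L)⁻¹ ≤ H w w.length := by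
  induction w with
  | nil => rw [H_nil]; simp
  | cons a w ih =>
    rw [List.length_cons, H_cons_succ, Nat.factorial_succ]
    push_cast
    rw [mul_pow, mul_inv]
    have h1 := ih fun x hx => hw x (List.mem_cons_of_mem _ hx)
    have h2 : (((w.length : ℝ) + 1) ^ L)⁻¹ ≤ (((w.length : ℝ) + 1) ^ a)⁻¹ :=
      inv_anti₀ (by positivity) (pow_le_pow_right₀ (by
        linarith [Nat.cast_nonneg (α := ℝ) w.length]) (hw a List.mem_cons_self))
    have h3 := mul_le_mul h2 h1 (by positivity) (by positivity)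
    have h4 := H_nonneg (a :: w) w.length
    linarith

lemma H_low' (L a M : ℕ) (t : List ℕ) (ha : a ≤ L) (ht : ∀ x ∈ t, x ≤ L) :
    ((((t.length + 1).factorial : ℕ) : ℝ) ^ L)⁻¹ * (((t.length : ℝ) + 1) ^ M)⁻¹ ≤
      H ((a + M) :: t) (t.length + 1) := by
  rw [H_cons_succ, Nat.factorial_succ]
  push_cast
  rw [mul_pow, mul_inv, pow_add, mul_inv]
  have h1 := H_low L t ht
  have h2 : (((t.length : ℝ) + 1) ^ L)⁻¹ ≤ (((t.length : ℝ) + 1) ^ a)⁻¹ :=
    inv_anti₀ (by positivity) (pow_le_pow_right₀ (by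
      linarith [Nat.cast_nonneg (α := ℝ) t.length]) ha)
  have h3 := mul_le_mul h2 h1 (by positivity) (by positivity)
  have h4 := H_nonneg ((a + M) :: t) t.length
  have h5 : (0 : ℝ) ≤ (((t.length : ℝ) + 1) ^ M)⁻¹ := by positivity
  have h6 := mul_le_mul_of_nonneg_right h3 h5
  calc _ = (((t.length : ℝ) + 1) ^ L)⁻¹ * (((t.length.factorial : ℕ) : ℝ) ^ L)⁻¹ *
      (((t.length : ℝ) + 1) ^ M)⁻¹ := rfl
    _ ≤ (((t.length : ℝ) + 1) ^ a)⁻¹ * H t t.length * (((t.length : ℝ) + 1) ^ M)⁻¹ := h6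
    _ = (((t.length : ℝ) + 1) ^ a)⁻¹ * (((t.length : ℝ) + 1) ^ M)⁻¹ * H t t.length := by ring
    _ ≤ _ := by linarith

end Pool.Agent.Helper13K9.CS
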