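import Mathlib
import Pool.Agent.Helper13K9.CS.Spa

/-!
# No small relations between words whose last parts have rapidly increasing lengths
-/

set_option autoImplicit false

namespace Pool.Agent.Helper13K9.CS

open Filter Topology Finset
open Pool.Agent.H447R2.MZ (H H_nil H_cons H_cons_zero H_cons_succ H_nonneg Adm val tendsto_H H_le_val H_bdd H_mono)

lemma val_up (w : List ℕ) (hw : ∀ x ∈ w, 2 ≤ x) (hadm : Adm w) :
    val w ≤ 2 ^ w.length / (w.length.factorial : ℝ) := by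
  refine le_of_tendsto' (tendsto_H w hadm) fun N => (H_fac w hw N).trans ?_
  exact div_le_div_of_nonneg_right (pow_le_pow_left₀ (S2_nonneg N) (S2_le N) _) (Nat.cast_nonneg _)

lemma nw_two (u : List ℕ) : ∀ x ∈ nw u, 2 ≤ x := by
  intro x hx
  rw [nw, List.mem_map] at hx
  obtain ⟨y, _, rfl⟩ := hx
  omega

lemma adm_of_two {w : List ℕ} (hw : ∀ x ∈ w, 2 ≤ x) : Adm w :=
  ⟨fun x hx => by have := hw x hx; omega, fun x t h => hw x (by rw [h]; exact List.mem_cons_self)⟩

lemma app_two (u : List ℕ) {s : List ℕ} (hs : ∀ x ∈ s, 2 ≤ x) : ∀ x ∈ nw u ++ s, 2 ≤ x := by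
  intro x hx
  rcases List.mem_append.1 hx with h | h
  · exact nw_two u x h
  · exact hs x h

lemma val_up' (u s : List ℕ) (hs : ∀ x ∈ s, 2 ≤ x) :
    val (nw u ++ s) ≤ 2 ^ u.length * (2 ^ s.length / (s.length.factorial : ℝ)) := by
  have h := val_up (nw u ++ s) (app_two u hs) (adm_of_two (app_two u hs))
  refine h.trans ?_
  rw [List.length_append, nw_len, pow_add, mul_div_assoc]
  refine mul_le_mul_of_nonneg_left ?_ (by positivity)
  refine div_le_div_of_nonneg_left (by positivity) (by exact_mod_cast Nat.factorial_pos _) ?_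
  exact_mod_cast Nat.factorial_le (Nat.le_add_left _ _)

/-- the decreasing function of the lengths -/
noncomputable def gg (r : ℕ) : ℝ := (r : ℝ) * (2 ^ r / (r.factorial : ℝ))

lemma gg_nonneg (r : ℕ) : 0 ≤ gg r := by unfold gg; positivity

lemma gg_succ {r : ℕ} (hr : 4 ≤ r) : gg (r + 1) ≤ gg r * (1 / 2) := by
  unfold gg
  have hr' : (4 : ℝ) ≤ r := by exact_mod_cast hr
  have hf : (0 : ℝ) < (r.factorial : ℝ) := by exact_mod_cast Nat.factorial_pos _
  rw [Nat.factorial_succ]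
  push_cast
  have e : ((r : ℝ) + 1) * (2 ^ (r + 1) / (((r : ℝ) + 1) * (r.factorial : ℝ))) =
      2 * (2 ^ r / (r.factorial : ℝ)) := by
    rw [pow_succ]
    field_simp
  rw [e]
  have h1 : (0 : ℝ) ≤ 2 ^ r / (r.factorial : ℝ) := by positivity
  nlinarith

lemma gg_add {r : ℕ} (hr : 4 ≤ r) (i : ℕ) : gg (r + i) ≤ gg r * (1 / 2) ^ i := by
  induction i with
  | zero => simp
  | succ i ih =>
    rw [← add_assoc, pow_succ, ← mul_assoc]
    exact (gg_succ (by omega)).trans (mul_le_mul_of_nonneg_right ih (by norm_num))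

lemma sum_gg {R : ℕ} (hR : 4 ≤ R) (ρ : ℕ → ℕ) (h0 : R ≤ ρ 0) (hρ : ∀ i, ρ i < ρ (i + 1)) (n : ℕ) :
    ∑ i ∈ range n, gg (ρ i) ≤ 2 * gg R := by
  have h1 : ∀ i, R + i ≤ ρ i := by
    intro i
    induction i with
    | zero => simpa using h0
    | succ i ih => have := hρ i; omega
  have h2 : ∀ i, gg (ρ i) ≤ gg R * (1 / 2) ^ i := by
    intro i
    have h3 := h1 i
    obtain ⟨d, hd⟩ : ∃ d, ρ i = R + i + d := ⟨ρ i - (R + i), by omega⟩
    rw [hd, add_assoc]
    refine (gg_add hR (i + d)).trans (mul_le_mul_of_nonneg_left ?_ (gg_nonneg R))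
    exact pow_le_pow_of_le_one (by norm_num) (by norm_num) (Nat.le_add_right _ _)
  refine (Finset.sum_le_sum fun i _ => h2 i).trans ?_
  rw [← Finset.mul_sum, mul_comm 2]
  refine mul_le_mul_of_nonneg_left ?_ (gg_nonneg R)
  have h4 := Summable.sum_le_tsum (range n) (fun i _ => by positivity)
    (summable_geometric_of_lt_one (r := (1 / 2 : ℝ)) (by norm_num) (by norm_num))
  rwa [tsum_geometric_two] at h4

lemma gg_mul (L r : ℕ) : gg ((L + 1) * r) ≤
    ((L : ℝ) + 1) * r * ((2 ^ (L + 1)) ^ r / ((r.factorial : ℝ) ^ (L + 1))) := by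
  unfold gg
  have hf : (0 : ℝ) < (r.factorial : ℝ) := by exact_mod_cast Nat.factorial_pos _
  push_cast
  rw [← pow_mul]
  refine mul_le_mul_of_nonneg_left ?_ (by positivity)
  refine div_le_div_of_nonneg_left (by positivity) (by positivity) ?_
  have h1 : r.factorial ^ (L + 1) ∣ ((L + 1) * r).factorial := by
    generalize L + 1 = k
    induction k with
    | zero => simp
    | succ k ih =>
      rw [pow_succ, Nat.succ_mul]
      exact (mul_dvd_mul_right ih _).trans (Nat.factorial_mul_factorial_dvd_factorial_add _ _)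
  exact_mod_cast Nat.le_of_dvd (Nat.factorial_pos _) h1

/-- the comparison of the sizes -/
lemma compare (W : ℝ) (L M : ℕ) : ∃ r0 : ℕ, 4 ≤ r0 ∧ ∀ r : ℕ, r0 ≤ r →
    W * (2 * gg ((L + 1) * r)) < (((r.factorial : ℕ) : ℝ) ^ L)⁻¹ * ((r : ℝ) ^ M)⁻¹ := by
  have h1 := FloorSemiring.tendsto_pow_div_factorial_atTop ((2 : ℝ) ^ (L + 2))
  have h2 := tendsto_pow_const_div_const_pow_of_one_lt (M + 1) (r := (2 : ℝ)) (by norm_num)
  have hK : (0 : ℝ) < (|W| + 1) * 2 * ((L : ℝ) + 1) := by positivity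
  have h3 := (h1.eventually_lt_const (show (0 : ℝ) < 1 / ((|W| + 1) * 2 * ((L : ℝ) + 1)) by positivity))
  have h4 := (h2.eventually_lt_const (show (0 : ℝ) < 1 by norm_num))
  obtain ⟨r1, hr1⟩ := eventually_atTop.1 (h3.and h4)
  refine ⟨max 4 r1, le_max_left _ _, fun r hr => ?_⟩
  obtain ⟨h5, h6⟩ := hr1 r (le_trans (le_max_right _ _) hr)
  have hr4 : 4 ≤ r := le_trans (le_max_left _ _) hr
  have hr0 : (0 : ℝ) < r := by exact_mod_cast (by omega : 0 < r)
  have hf : (0 : ℝ) < (r.factorial : ℝ) := by exact_mod_cast Nat.factorial_pos _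
  rw [div_lt_one (by positivity)] at h6
  rw [div_lt_div_iff₀ hf hK, one_mul] at h5
  have h7 := gg_mul L r
  have hg := gg_nonneg ((L + 1) * r)
  have h8 : W * (2 * gg ((L + 1) * r)) ≤ (|W| + 1) * (2 * gg ((L + 1) * r)) :=
    mul_le_mul_of_nonneg_right (by linarith [le_abs_self W]) (by positivity)
  refine lt_of_le_of_lt (h8.trans (mul_le_mul_of_nonneg_left
    (mul_le_mul_of_nonneg_left h7 (by norm_num)) (by positivity))) ?_
  rw [← mul_inv, ← one_div, lt_div_iff₀ (by positivity)]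
  have e : (|W| + 1) * (2 * (((L : ℝ) + 1) * r * ((2 ^ (L + 1)) ^ r / ((r.factorial : ℝ) ^ (L + 1))))) *
      ((r.factorial : ℝ) ^ L * (r : ℝ) ^ M) =
      ((|W| + 1) * 2 * ((L : ℝ) + 1)) * ((r : ℝ) ^ (M + 1) * (2 ^ (L + 1)) ^ r) / (r.factorial : ℝ) := by
    rw [pow_succ (r.factorial : ℝ) L, pow_succ (r : ℝ) M]
    field_simp
  rw [e, div_lt_one hf]
  refine lt_of_le_of_lt ?_ h5
  rw [mul_comm]
  refine mul_le_mul_of_nonneg_right ?_ hK.le
  have e2 : ((2 : ℝ) ^ (L + 2)) ^ r = 2 ^ r * (2 ^ (L + 1)) ^ r := by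
    rw [← mul_pow]
    congr 1
    rw [← pow_succ']
  rw [e2]
  exact mul_le_mul_of_nonneg_right h6.le (by positivity)

end Pool.Agent.Helper13K9.CS
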