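import Mathlib
import Pool.Agent.Helper13K9.CS.Seq
import Pool.Agent.Helper13K9.CS.Expl
import Pool.Agent.Helper13K9.CS.Indl

/-!
# The two theorems on words with common last parts
-/

set_option autoImplicit false

namespace Pool.Agent.Helper13K9.CS

open Filter Topology Finset
open Pool.Agent.H447R2.MZ (H H_nil H_cons H_cons_zero H_cons_succ H_nonneg Adm val tendsto_H H_le_val H_bdd H_mono)

/-- the statement on one last part -/
def One (U : Finset (List ℕ)) (κ : ℝ) (M : ℕ) : Prop :=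
  ∀ c : List ℕ → ℤ, (∃ u ∈ U, c u ≠ 0) → ∃ ε : ℝ, (ε = 1 ∨ ε = -1) ∧
    ∀ (a : ℕ) (t : List ℕ), 1 ≤ a → (∀ x ∈ t, 1 ≤ x) → (∀ u ∈ U, Adm (nw u ++ a :: t)) →
      (∀ u ∈ U, |(c u : ℝ)| ≤ κ * ((t.length : ℝ) + 1)) →
      κ * val ((a + M) :: t) ≤ ε * ∑ u ∈ U, (c u : ℝ) * val (nw u ++ a :: t)

theorem seq (U : Finset (List ℕ)) (κ : ℝ) (M : ℕ) (hκ : 0 < κ) (h : One U κ M) (L : ℕ) :
    ∃ r0 : ℕ, ∀ s : ℕ → List ℕ, (∀ j, ∀ x ∈ s j, 2 ≤ x ∧ x ≤ L) → r0 ≤ (s 0).length →
      (∀ j, (L + 1) * (s j).length ≤ (s (j + 1)).length) → ∀ (n : ℕ) (c : ℕ → List ℕ → ℤ),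
      (∀ j < n, ∀ u ∈ U, |(c j u : ℝ)| ≤ κ * (s j).length) →
      ∑ j ∈ range n, ∑ u ∈ U, (c j u : ℝ) * val (nw u ++ s j) = 0 →
      ∀ j < n, ∀ u ∈ U, c j u = 0 := by
  classical
  set W : ℝ := ∑ u ∈ U, 2 ^ u.length with hW
  obtain ⟨r0, hr4, hr0⟩ := compare W L M
  refine ⟨r0, fun s hs hs0 hgrow n c hc hsum => ?_⟩
  by_contra hcon
  push Not at hcon
  have hex : ∃ j, j < n ∧ ∃ u ∈ U, c j u ≠ 0 := by
    obtain ⟨j, hj, u, hu, hne⟩ := hcon
    exact ⟨j, hj, u, hu, hne⟩
  set j0 := Nat.find hex with hj0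
  obtain ⟨hj0n, hj0c⟩ := Nat.find_spec hex
  rw [← hj0] at hj0n hj0c
  have hmin : ∀ j < j0, ∀ u ∈ U, c j u = 0 := by
    intro j hj u hu
    by_contra hne
    exact Nat.find_min hex hj ⟨by omega, u, hu, hne⟩
  set A : ℕ → ℝ := fun j => ∑ u ∈ U, (c j u : ℝ) * val (nw u ++ s j) with hA
  -- lengths
  have hlen : ∀ j, r0 ≤ (s j).length := by
    intro j
    induction j with
    | zero => exact hs0
    | succ j ih =>
      have h1 := hgrow j
      have h2 : (s j).length ≤ (L + 1) * (s j).length := Nat.le_mul_of_pos_left _ (Nat.succ_pos _)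
      omega
  have hL : 2 ≤ L := by
    have h1 := hlen 0
    have h2 : s 0 ≠ [] := by
      intro h3
      rw [h3, List.length_nil] at h1
      omega
    obtain ⟨x, t, hx⟩ := List.exists_cons_of_ne_nil h2
    have h4 := hs 0 x (by rw [hx]; exact List.mem_cons_self)
    omega
  have hstep : ∀ j, (s j).length < (s (j + 1)).length := by
    intro j
    have h1 := hgrow j
    have h2 := hlen j
    have h3 : 2 * (s j).length ≤ (L + 1) * (s j).length := Nat.mul_le_mul_right _ (by omega)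
    omega
  set r := (s j0).length with hr
  have hrr0 : r0 ≤ r := hlen j0
  -- the first term
  obtain ⟨a, t, hat⟩ : ∃ a t, s j0 = a :: t := List.exists_cons_of_ne_nil (by
    intro h3
    rw [h3, List.length_nil] at hr
    omega)
  have hrt : r = t.length + 1 := by rw [hr, hat, List.length_cons]
  have ha := hs j0 a (by rw [hat]; exact List.mem_cons_self)
  have ht : ∀ x ∈ t, 2 ≤ x ∧ x ≤ L := fun x hx => hs j0 x (by rw [hat]; exact List.mem_cons_of_mem _ hx)
  obtain ⟨ε, hε, h1⟩ := h (c j0) hj0c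
  have h2 := h1 a t (by omega) (fun x hx => by have := ht x hx; omega)
    (fun u _ => adm_of_two (app_two u (by rw [← hat]; exact fun x hx => (hs j0 x hx).1)))
    (fun u hu => by
      have h3 := hc j0 hj0n u hu
      rw [← hr, hrt] at h3
      push_cast at h3
      exact h3)
  have hεabs : |ε| = 1 := by
    rcases hε with h | h <;> rw [h] <;> simp
  have hfirst : κ * ((((r.factorial : ℕ) : ℝ) ^ L)⁻¹ * ((r : ℝ) ^ M)⁻¹) ≤ |A j0| := by
    have h3 : κ * val ((a + M) :: t) ≤ |A j0| := by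
      refine h2.trans ?_
      rw [← hat]
      refine (le_abs_self _).trans ?_
      rw [abs_mul, hεabs, one_mul]
    refine le_trans (mul_le_mul_of_nonneg_left ?_ hκ.le) h3
    have h4 := H_low' L a M t ha.2 (fun x hx => (ht x hx).2)
    rw [hrt]
    push_cast
    push_cast at h4
    exact h4.trans (H_le_val _ (adm_cons (by omega) fun x hx => by have := ht x hx; omega) _)
  -- the other terms
  have hother : ∀ j < n, |A j| ≤ κ * W * gg (s j).length := by
    intro j hj
    refine (Finset.abs_sum_le_sum_abs _ _).trans ?_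
    rw [hW, Finset.mul_sum, Finset.sum_mul]
    refine Finset.sum_le_sum fun u hu => ?_
    have h3 := val_up' u (s j) (fun x hx => (hs j x hx).1)
    have h4 : 0 ≤ val (nw u ++ s j) :=
      (val_pos (adm_of_two (app_two u fun x hx => (hs j x hx).1))).le
    rw [abs_mul, abs_of_nonneg h4]
    refine (mul_le_mul (hc j hj u hu) h3 h4 (by positivity)).trans (le_of_eq ?_)
    unfold gg
    ring
  have hsumA : A j0 + ∑ i ∈ range (n - (j0 + 1)), A (j0 + 1 + i) = 0 := by
    obtain ⟨m, hm⟩ : ∃ m, n = j0 + 1 + m := ⟨n - (j0 + 1), by omega⟩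
    have h3 : ∑ j ∈ range n, A j = 0 := hsum
    rw [hm, Finset.sum_range_add, Finset.sum_range_succ] at h3
    have h4 : ∑ j ∈ range j0, A j = 0 := by
      refine Finset.sum_eq_zero fun j hj => ?_
      rw [Finset.mem_range] at hj
      exact Finset.sum_eq_zero fun u hu => by rw [hmin j hj u hu]; simp
    rw [h4, zero_add] at h3
    rw [show n - (j0 + 1) = m by omega]
    exact h3
  have hR : 4 ≤ (L + 1) * r := by
    have : r ≤ (L + 1) * r := Nat.le_mul_of_pos_left _ (Nat.succ_pos _)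
    omega
  have htail : |∑ i ∈ range (n - (j0 + 1)), A (j0 + 1 + i)| ≤ κ * (W * (2 * gg ((L + 1) * r))) := by
    refine (Finset.abs_sum_le_sum_abs _ _).trans ?_
    have h3 : ∑ i ∈ range (n - (j0 + 1)), |A (j0 + 1 + i)| ≤
        ∑ i ∈ range (n - (j0 + 1)), κ * W * gg (s (j0 + 1 + i)).length := by
      refine Finset.sum_le_sum fun i hi => hother _ ?_
      rw [Finset.mem_range] at hi
      omega
    refine h3.trans ?_
    rw [← Finset.mul_sum, ← mul_assoc]
    have hW0 : 0 ≤ W := Finset.sum_nonneg fun u _ => by positivity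
    refine mul_le_mul_of_nonneg_left ?_ (mul_nonneg hκ.le hW0)
    exact sum_gg hR (fun i => (s (j0 + 1 + i)).length) (by simpa using hgrow j0)
      (fun i => hstep (j0 + 1 + i)) _
  have h5 := hr0 r hrr0
  have h6 := mul_lt_mul_of_pos_left h5 hκ
  have h7 : A j0 = -∑ i ∈ range (n - (j0 + 1)), A (j0 + 1 + i) := by linarith
  rw [h7, abs_neg] at hfirst
  linarith

theorem one (U : Finset (List ℕ)) : ∃ (κ : ℝ) (M : ℕ), 0 < κ ∧ 1 ≤ M ∧ One U κ M := fin1 expl indl U

end Pool.Agent.Helper13K9.CS
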